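import Mathlib

set_option autoImplicit false

namespace Pool.Agent.Q58.HR

/-- Linearly independent functions are separated by as many points. -/
theorem exists_det_ne_zero {S : Type} : ∀ (m : ℕ) (f : Fin m → S → ℂ),
    LinearIndependent ℂ f → ∃ z : Fin m → S, (Matrix.of fun i j => f i (z j)).det ≠ 0 := by
  intro m
  induction m with
  | zero => intro f _; exact ⟨fun i => i.elim0, by simp⟩
  | succ m ih =>
    intro f hf
    obtain ⟨z', hz'⟩ := ih (fun i => f i.castSucc) (hf.comp _ (Fin.castSucc_injective m))
    by_contra hcon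
    push Not at hcon
    set c : Fin (m + 1) → ℂ := fun i =>
      (-1) ^ ((i : ℕ) + m) * (Matrix.of fun a b => f (i.succAbove a) (z' b)).det with hc
    have key : ∀ z : S, ∑ i, c i * f i z = 0 := by
      intro z
      have h := hcon (Fin.snoc z' z)
      rw [Matrix.det_succ_column _ (Fin.last m)] at h
      rw [← h]
      refine Finset.sum_congr rfl fun i _ => ?_
      simp only [hc, Matrix.of_apply, Fin.snoc_last, Fin.val_last]
      have : (Matrix.of fun a b => f (i.succAbove a) (z' b)) =
          (Matrix.of fun i j => f i ((Fin.snoc z' z : Fin (m + 1) → S) j)).submatrix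
            i.succAbove (Fin.last m).succAbove := by
        ext a b
        simp
      rw [this]
      ring
    have h0 : ∑ i, c i • f i = 0 := by
      funext z
      simpa using key z
    have h1 := Fintype.linearIndependent_iff.1 hf c h0 (Fin.last m)
    simp only [hc] at h1
    apply hz'
    rcases mul_eq_zero.1 h1 with h | h
    · exact absurd h (pow_ne_zero _ (by norm_num))
    · simpa using h

/-- If all `(k+1)`-minors of a set of functions vanish, its span has rank at most `k`. -/
theorem rank_span_le {S : Type} (k : ℕ) (G : Set (S → ℂ))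
    (h : ∀ (f : Fin (k + 1) → S → ℂ) (z : Fin (k + 1) → S), (∀ i, f i ∈ G) →
      (Matrix.of fun i j => f i (z j)).det = 0) :
    Module.rank ℂ (Submodule.span ℂ G) ≤ k := by
  obtain ⟨b, hbG, hspan, hli⟩ := exists_linearIndependent ℂ G
  rw [← hspan, rank_span_set hli]
  by_contra hlt
  push Not at hlt
  have h1 : ((k + 1 : ℕ) : Cardinal) ≤ Cardinal.mk b := by
    rw [Cardinal.nat_succ]
    exact Order.succ_le_of_lt hlt
  obtain ⟨e⟩ : Nonempty (Fin (k + 1) ↪ b) := by
    rw [← Cardinal.le_def]
    simpa using h1
  have h2 : LinearIndependent ℂ (fun i : Fin (k + 1) => ((e i : b) : S → ℂ)) :=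
    hli.comp _ e.injective
  obtain ⟨z, hz⟩ := exists_det_ne_zero _ _ h2
  exact hz (h _ z fun i => hbG (e i).2)

/-- If a space of functions has rank at most `k`, all its `(k+1)`-minors vanish. -/
theorem det_eq_zero_of_rank_le {S : Type} (k : ℕ) (V : Submodule ℂ (S → ℂ))
    (h : Module.rank ℂ V ≤ k) (f : Fin (k + 1) → S → ℂ) (z : Fin (k + 1) → S)
    (hf : ∀ i, f i ∈ V) : (Matrix.of fun i j => f i (z j)).det = 0 := by
  have h1 : ¬ LinearIndependent ℂ (fun i : Fin (k + 1) => (⟨f i, hf i⟩ : V)) := by
    intro hli
    have h2 := hli.cardinal_le_rank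
    rw [Cardinal.mk_fin] at h2
    have := Nat.cast_le.1 (h2.trans h)
    omega
  rw [Fintype.not_linearIndependent_iff] at h1
  obtain ⟨g, hg, i0, hi0⟩ := h1
  rw [← Matrix.exists_vecMul_eq_zero_iff]
  refine ⟨g, fun h => hi0 (congrFun h i0), ?_⟩
  funext j
  have h4 := congrArg (fun v : V => (v : S → ℂ) (z j)) hg
  simp only [Submodule.coe_sum, Submodule.coe_smul, Submodule.coe_zero, Pi.zero_apply,
    Finset.sum_apply, Pi.smul_apply, smul_eq_mul] at h4
  simpa [Matrix.vecMul, dotProduct] using h4

/-- The evaluation condition defining a proper subspace. -/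
theorem rank_lt_of_lt {S : Type} (k : ℕ) (V W : Submodule ℂ (S → ℂ)) (hlt : W < V)
    (h : Module.rank ℂ V ≤ (k + 1 : ℕ)) : Module.rank ℂ W ≤ k := by
  have hfin : Module.Finite ℂ V := by
    rw [← Module.rank_lt_aleph0_iff]
    exact h.trans_lt (Cardinal.natCast_lt_aleph0)
  have h1 := Submodule.finrank_lt_finrank_of_lt hlt
  have h2 : Module.finrank ℂ V ≤ k + 1 := by
    rw [← Module.finrank_eq_rank] at h
    exact Nat.cast_le.1 h
  have hfinW : Module.Finite ℂ W := Submodule.finiteDimensional_of_le hlt.le
  rw [← Module.finrank_eq_rank]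
  exact Nat.cast_le.2 (by omega)

/-- Lagrange reduction of a Hermitian kernel of finite rank. -/
theorem lagrange {S : Type} : ∀ (c : ℕ) (K : S → S → ℂ),
    (∀ z w, K w z = (starRingEnd ℂ) (K z w)) →
    Module.rank ℂ (Submodule.span ℂ (Set.range fun w => fun z => K z w)) ≤ c →
    ∃ (ε : Fin c → ℝ) (f : Fin c → S → ℂ), (∀ j, ε j = 1 ∨ ε j = -1) ∧
      (∀ j, f j ∈ Submodule.span ℂ (Set.range fun w => fun z => K z w)) ∧
      ∀ z, K z z = ((∑ j, ε j * Complex.normSq (f j z) : ℝ) : ℂ) := by
  intro c
  induction c with
  | zero =>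
    intro K hK hr
    refine ⟨fun i => i.elim0, fun i => i.elim0, fun i => i.elim0, fun i => i.elim0, ?_⟩
    intro z
    have h0 : Module.rank ℂ (Submodule.span ℂ (Set.range fun w => fun z => K z w)) = 0 := by
      simpa using hr
    rw [Submodule.rank_eq_zero, Submodule.span_eq_bot] at h0
    have := congrFun (h0 _ ⟨z, rfl⟩) z
    simpa using this
  | succ c ih =>
    intro K hK hr
    by_cases hz : ∀ z, K z z = 0
    · refine ⟨fun _ => 1, fun _ => 0, fun _ => Or.inl rfl, fun _ => Submodule.zero_mem _, ?_⟩
      intro z
      simp [hz z]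
    · push Not at hz
      obtain ⟨z0, hz0⟩ := hz
      obtain ⟨d, hd⟩ : ∃ d : ℝ, K z0 z0 = d := by
        refine ⟨(K z0 z0).re, ?_⟩
        exact (Complex.conj_eq_iff_re.1 (hK z0 z0).symm).symm
      have hd0 : d ≠ 0 := by
        rintro rfl
        exact hz0 (by simpa using hd)
      set V := Submodule.span ℂ (Set.range fun w => fun z => K z w) with hV
      set K' : S → S → ℂ := fun z w => K z w - K z z0 * K z0 w / d with hK'
      have hK'h : ∀ z w, K' w z = (starRingEnd ℂ) (K' z w) := by
        intro z w
        simp only [hK', map_sub, map_mul, map_div₀, Complex.conj_ofReal]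
        rw [← hK z w, ← hK z z0, ← hK z0 w]
        ring
      have hsub : ∀ w, (fun z => K' z w) ∈ V := by
        intro w
        have : (fun z => K' z w) = (fun z => K z w) - (K z0 w / d) • (fun z => K z z0) := by
          funext z
          simp [hK']
          ring
        rw [this]
        exact V.sub_mem (Submodule.subset_span ⟨w, rfl⟩)
          (V.smul_mem _ (Submodule.subset_span ⟨z0, rfl⟩))
      set V' := Submodule.span ℂ (Set.range fun w => fun z => K' z w) with hV'
      have hle : V' ≤ V := by
        rw [hV', Submodule.span_le]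
        rintro _ ⟨w, rfl⟩
        exact hsub w
      have hvan : ∀ f ∈ V', f z0 = 0 := by
        intro f hf
        induction hf using Submodule.span_induction with
        | mem x hx =>
          obtain ⟨w, rfl⟩ := hx
          have : (d : ℂ) ≠ 0 := by exact_mod_cast hd0
          simp only [hK', hd]
          field_simp
          simp
        | zero => rfl
        | add x y _ _ hx hy => simp [hx, hy]
        | smul a x _ hx => simp [hx]
      have hlt : V' < V := by
        refine lt_of_le_of_ne hle ?_
        intro heq
        have h5 : (fun z => K z z0) ∈ V' := by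
          rw [heq]
          exact Submodule.subset_span ⟨z0, rfl⟩
        exact hz0 (hvan (fun z => K z z0) h5)
      obtain ⟨ε, f, hε, hf, hsum⟩ := ih K' hK'h (rank_lt_of_lt c V V' hlt hr)
      refine ⟨Fin.cons (if 0 < d then 1 else -1) ε,
        Fin.cons (((Real.sqrt |d|)⁻¹ : ℂ) • fun z => K z z0) f, ?_, ?_, ?_⟩
      · intro j
        refine Fin.cases ?_ (fun j => ?_) j
        · simp only [Fin.cons_zero]
          split_ifs
          · exact Or.inl rfl
          · exact Or.inr rfl
        · simpa using hε j
      · intro j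
        refine Fin.cases ?_ (fun j => ?_) j
        · simp only [Fin.cons_zero]
          exact V.smul_mem _ (Submodule.subset_span ⟨z0, rfl⟩)
        · simpa using hle (hf j)
      · intro z
        rw [Fin.sum_univ_succ]
        simp only [Fin.cons_zero, Fin.cons_succ]
        have h1 : K z z = K' z z + K z z0 * K z0 z / d := by simp [hK']
        rw [h1, hsum z, hK z z0, Complex.mul_conj]
        have h2 : ((if 0 < d then (1 : ℝ) else -1)) *
            Complex.normSq ((((Real.sqrt |d|)⁻¹ : ℂ) • fun z => K z z0) z) =
            Complex.normSq (K z z0) / d := by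
          simp only [Pi.smul_apply, smul_eq_mul, map_mul]
          have h3 : Complex.normSq ((Real.sqrt |d|)⁻¹ : ℂ) = |d|⁻¹ := by
            rw [← Complex.ofReal_inv, Complex.normSq_ofReal]
            rw [← mul_inv, Real.mul_self_sqrt (abs_nonneg _)]
          rw [h3]
          rcases lt_or_gt_of_ne hd0 with h | h
          · rw [if_neg (not_lt.2 h.le), abs_of_neg h]
            field_simp
          · rw [if_pos h, abs_of_pos h]
            field_simp
        rw [h2]
        push_cast
        ring

end Pool.Agent.Q58.HR
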