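import Mathlib
import Pool.Agent.Q58.HR.Alg

set_option autoImplicit false

open Filter Topology

namespace Pool.Agent.Q58.HR

/-- An entire function vanishing on the real line vanishes. -/
theorem entire_zero (h : ℂ → ℂ) (hh : Differentiable ℂ h) (h0 : ∀ t : ℝ, h t = 0) (s : ℂ) :
    h s = 0 := by
  have hA : AnalyticOnNhd ℂ h Set.univ := fun z _ => hh.analyticAt z
  have hfreq : ∃ᶠ z in 𝓝[≠] (0 : ℂ), h z = (fun _ => (0 : ℂ)) z := by
    have ht : Tendsto (fun n : ℕ => ((1 / ((n : ℝ) + 1) : ℝ) : ℂ)) atTop (𝓝[≠] (0 : ℂ)) := by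
      rw [tendsto_nhdsWithin_iff]
      refine ⟨?_, Eventually.of_forall fun n => ?_⟩
      · have := (Complex.continuous_ofReal.tendsto 0).comp tendsto_one_div_add_atTop_nhds_zero_nat
        simpa only [Complex.ofReal_zero, Function.comp_def] using this
      · have : (1 / ((n : ℝ) + 1)) ≠ 0 := by positivity
        exact Complex.ofReal_ne_zero.2 this
    exact ht.frequently (Frequently.of_forall fun n => h0 _)
  exact congrFun (hA.eq_of_frequently_eq (analyticOnNhd_const) hfreq) s

/-- If a product of entire functions vanishes and one of them does not, the other does. -/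
theorem entire_mul (f g : ℂ → ℂ) (hf : Differentiable ℂ f) (hg : Differentiable ℂ g)
    (h : ∀ z, f z * g z = 0) (z0 : ℂ) (h0 : f z0 ≠ 0) (z : ℂ) : g z = 0 := by
  have hA : AnalyticOnNhd ℂ f Set.univ := fun z _ => hf.analyticAt z
  have hB : AnalyticOnNhd ℂ g Set.univ := fun z _ => hg.analyticAt z
  rcases hA.eq_zero_or_eq_zero_of_mul_eq_zero hB (fun z _ => h z) isPreconnected_univ with h1 | h1
  · exact absurd (h1 z0 (Set.mem_univ _)) h0
  · exact h1 z (Set.mem_univ _)

/-- Conjugating an entire function of one variable. -/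
theorem conj_entire (h : ℂ → ℂ) (hh : Differentiable ℂ h) :
    Differentiable ℂ fun s => (starRingEnd ℂ) (h ((starRingEnd ℂ) s)) := fun _ =>
  differentiableAt_conj_conj_iff.2 (hh _)

/-- Uniqueness of polarizations. -/
theorem polar {X : Type} [NormedAddCommGroup X] [NormedSpace ℂ X] [StarAddMonoid X]
    [StarModule ℂ X] (G : X → X → ℂ)
    (hG : ∀ a b : X, Differentiable ℂ fun s : ℂ => G (a + s • b) (star a + s • star b))
    (h0 : ∀ x, G x (star x) = 0) (x y : X) : G x y = 0 := by
  set a : X := (1 / 2 : ℂ) • (x + star y) with ha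
  set b : X := (-Complex.I / 2 : ℂ) • (x - star y) with hb
  have key := entire_zero _ (hG a b) (fun t => ?_) Complex.I
  · have h1 : a + Complex.I • b = x := by
      rw [ha, hb, smul_smul]
      have : Complex.I * (-Complex.I / 2) = 1 / 2 := by
        rw [← mul_div_assoc, mul_neg, Complex.I_mul_I]; norm_num
      rw [this]
      rw [← smul_add]
      have : x + star y + (x - star y) = (2 : ℂ) • x := by rw [two_smul]; abel
      rw [this, smul_smul]; norm_num
    have h2 : star a + Complex.I • star b = y := by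
      rw [ha, hb, star_smul, star_smul, smul_smul, star_add, star_sub, star_star]
      have h2' : (starRingEnd ℂ) 2 = 2 := map_ofNat _ 2
      have h3 : star (1 / 2 : ℂ) = 1 / 2 := by
        rw [← starRingEnd_apply]; simp [h2']
      have h4 : Complex.I * star (-Complex.I / 2 : ℂ) = -1 / 2 := by
        rw [← starRingEnd_apply]
        simp only [map_div₀, map_neg, Complex.conj_I, neg_neg, h2']
        rw [← mul_div_assoc, Complex.I_mul_I]
      rw [h3, h4]
      have : (-1 / 2 : ℂ) • (star x - y) = (1 / 2 : ℂ) • (y - star x) := by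
        rw [← neg_sub y (star x), smul_neg, neg_div, neg_smul, neg_neg]
      rw [this, ← smul_add]
      have : star x + y + (y - star x) = (2 : ℂ) • y := by rw [two_smul]; abel
      rw [this, smul_smul]; norm_num
    simpa [h1, h2] using key
  · have h5 : star a + (t : ℂ) • star b = star (a + (t : ℂ) • b) := by
      rw [star_add, star_smul (t : ℂ) b, ← starRingEnd_apply (t : ℂ), Complex.conj_ofReal]
    simp only [h5]
    exact h0 _

/-- Determinants of entire functions are entire. -/
theorem det_diff {m : ℕ} (A : ℂ → Matrix (Fin m) (Fin m) ℂ)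
    (hA : ∀ i j, Differentiable ℂ fun s => A s i j) : Differentiable ℂ fun s => (A s).det := by
  simp only [Matrix.det_apply']
  refine Differentiable.fun_sum fun σ _ => ?_
  refine Differentiable.const_mul ?_ _
  have h : ∀ i ∈ (Finset.univ : Finset (Fin m)), Differentiable ℂ fun s => A s (σ i) i :=
    fun i _ => hA (σ i) i
  exact Differentiable.fun_finsetProd h

section Hyp

variable {n : ℕ}

/-- All `(r+1)`-minors of functions of `V` at points of a common hyperplane vanish. -/
def Hyp (r : ℕ) (V : Set ((Fin n → ℂ) → ℂ)) : Prop :=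
  ∀ m : (Fin n → ℂ) →ₗ[ℂ] ℂ, m ≠ 0 → ∀ (f : Fin (r + 1) → (Fin n → ℂ) → ℂ)
    (z : Fin (r + 1) → Fin n → ℂ), (∀ i, f i ∈ V) → (∀ i j, m (z i) = m (z j)) →
    (Matrix.of fun i j => f i (z j)).det = 0

/-- Restriction of functions to a level set of a functional. -/
def res (m : (Fin n → ℂ) →ₗ[ℂ] ℂ) (τ : ℂ) :
    ((Fin n → ℂ) → ℂ) →ₗ[ℂ] ({z // m z = τ} → ℂ) :=
  LinearMap.funLeft ℂ ℂ Subtype.val

theorem Hyp.rank_le {r : ℕ} {V : Set ((Fin n → ℂ) → ℂ)} (h : Hyp r V)
    (m : (Fin n → ℂ) →ₗ[ℂ] ℂ) (hm : m ≠ 0) (τ : ℂ) :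
    Module.rank ℂ ((Submodule.span ℂ V).map (res m τ)) ≤ r := by
  rw [Submodule.map_span]
  refine rank_span_le r _ fun f z hf => ?_
  choose g hg hgf using hf
  have := h m hm g (fun i => (z i).1) hg (fun i j => by rw [(z i).2, (z j).2])
  rw [← this]
  congr 1
  ext i j
  simp only [Matrix.of_apply]
  rw [← hgf i]
  rfl

theorem Hyp.span {r : ℕ} {V : Set ((Fin n → ℂ) → ℂ)} (h : Hyp r V) :
    Hyp r (Submodule.span ℂ V : Set ((Fin n → ℂ) → ℂ)) := by
  intro m hm f z hf hz
  have h1 := h.rank_le m hm (m (z 0))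
  have h2 := det_eq_zero_of_rank_le r _ h1 (fun i => res m (m (z 0)) (f i))
    (fun j => ⟨z j, hz _ _⟩) (fun i => ⟨f i, hf i, rfl⟩)
  exact h2

theorem det_cons {S : Type} {r : ℕ} (f0 : S → ℂ) (f : Fin r → S → ℂ) (a : S) (z : Fin r → S)
    (ha : ∀ i, f i a = 0) :
    (Matrix.of fun i j => (Fin.cons f0 f : Fin (r + 1) → S → ℂ) i
      ((Fin.cons a z : Fin (r + 1) → S) j)).det =
      f0 a * (Matrix.of fun i j => f i (z j)).det := by
  rw [Matrix.det_succ_column_zero]
  rw [Fin.sum_univ_succ]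
  have h1 : ∀ i : Fin r, (-1 : ℂ) ^ ((i.succ : Fin (r + 1)) : ℕ) *
      (Matrix.of fun i j => (Fin.cons f0 f : Fin (r + 1) → S → ℂ) i
      ((Fin.cons a z : Fin (r + 1) → S) j)) i.succ 0 *
      ((Matrix.of fun i j => (Fin.cons f0 f : Fin (r + 1) → S → ℂ) i
      ((Fin.cons a z : Fin (r + 1) → S) j)).submatrix i.succ.succAbove Fin.succ).det = 0 := by
    intro i
    simp [ha i]
  rw [Finset.sum_eq_zero fun i _ => h1 i]
  simp only [Fin.val_zero, pow_zero, one_mul, Matrix.of_apply, Fin.cons_zero, add_zero]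
  congr 1

/-- The minors of functions vanishing on a hyperplane. -/
theorem minors_sub (hn : 2 ≤ n) {r : ℕ} (V : Submodule ℂ ((Fin n → ℂ) → ℂ))
    (hV : ∀ f ∈ V, Differentiable ℂ f) (h : Hyp (r + 1) (V : Set ((Fin n → ℂ) → ℂ)))
    (f0 : (Fin n → ℂ) → ℂ) (hf0 : f0 ∈ V) (z0 : Fin n → ℂ) (hz0 : f0 z0 ≠ 0) :
    Hyp r {f | f ∈ V ∧ ∀ z : Fin n → ℂ, z ⟨0, by omega⟩ = z0 ⟨0, by omega⟩ → f z = 0} := by
  set i0 : Fin n := ⟨0, by omega⟩ with hi0
  set i1 : Fin n := ⟨1, by omega⟩ with hi1
  have hi01 : i0 ≠ i1 := by simp [hi0, hi1]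
  set W : Set ((Fin n → ℂ) → ℂ) := {f | f ∈ V ∧ ∀ z : Fin n → ℂ, z i0 = z0 i0 → f z = 0} with hW
  -- the transversal case
  have case1 : ∀ m : (Fin n → ℂ) →ₗ[ℂ] ℂ, (∃ v : Fin n → ℂ, v i0 = 0 ∧ m v ≠ 0) →
      ∀ (f : Fin (r + 1) → (Fin n → ℂ) → ℂ) (z : Fin (r + 1) → Fin n → ℂ), (∀ i, f i ∈ W) →
      (∀ i j, m (z i) = m (z j)) → (Matrix.of fun i j => f i (z j)).det = 0 := by
    rintro m ⟨v, hv0, hmv⟩ f z hf hz
    have hm : m ≠ 0 := by
      rintro rfl
      exact hmv rfl
    set d : Fin n → ℂ := ((m (z 0) - m z0) / m v) • v with hd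
    have hmd : m d = m (z 0) - m z0 := by
      rw [hd, map_smul, smul_eq_mul, div_mul_cancel₀ _ hmv]
    have hd0 : d i0 = 0 := by simp [hd, hv0]
    have hprod : ∀ s : ℂ, f0 (z0 + s • d) *
        (Matrix.of fun i j => f i (z j + (s - 1) • d)).det = 0 := by
      intro s
      rw [← det_cons f0 f (z0 + s • d) (fun j => z j + (s - 1) • d)
        (fun i => (hf i).2 _ (by simp [hd0]))]
      apply h m hm
      · intro i
        refine Fin.cases ?_ (fun i => ?_) i
        · simpa using hf0
        · simpa using (hf i).1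
      · have key : ∀ i, m ((Fin.cons (z0 + s • d) (fun j => z j + (s - 1) • d) :
            Fin (r + 1 + 1) → Fin n → ℂ) i) = m z0 + s * m d := by
          intro i
          refine Fin.cases ?_ (fun i => ?_) i
          · simp
          · simp only [Fin.cons_succ, map_add, map_smul, smul_eq_mul]
            rw [hz i 0, hmd]
            ring
        intro i j
        rw [key i, key j]
    have h1 := entire_mul (fun s => f0 (z0 + s • d))
      (fun s => (Matrix.of fun i j => f i (z j + (s - 1) • d)).det)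
      ((hV f0 hf0).comp (by fun_prop)) (det_diff _ fun i j => ?_) hprod 0 (by simpa using hz0) 1
    · simpa using h1
    · simp only [Matrix.of_apply]
      exact (hV _ (hf i).1).comp (by fun_prop)
  intro m hm f z hf hz
  by_cases hc : ∃ v : Fin n → ℂ, v i0 = 0 ∧ m v ≠ 0
  · exact case1 m hc f z hf hz
  push Not at hc
  -- the parallel case
  set e0 : Fin n → ℂ := Pi.single i0 1 with he0
  set c : ℂ := m e0 with hcdef
  have hmz : ∀ z : Fin n → ℂ, m z = z i0 * c := by
    intro z
    have h1 : m (z - z i0 • e0) = 0 := hc _ (by simp [he0])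
    rw [map_sub, map_smul, sub_eq_zero] at h1
    simpa using h1
  have hc0 : c ≠ 0 := by
    intro h0
    apply hm
    ext i
    simp [hmz, h0]
  have hzz : ∀ i j, z i i0 = z j i0 := by
    intro i j
    have := hz i j
    rw [hmz, hmz] at this
    exact mul_right_cancel₀ hc0 this
  have hcont : Continuous fun s : ℂ => (Matrix.of fun i j => f i (z j - (s * z j i1) • e0)).det := by
    refine (det_diff _ fun i j => ?_).continuous
    simp only [Matrix.of_apply]
    exact (hV _ (hf i).1).comp (by fun_prop)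
  have hne : ∀ s : ℂ, s ≠ 0 →
      (Matrix.of fun i j => f i (z j - (s * z j i1) • e0)).det = 0 := by
    intro s hs
    set ms : (Fin n → ℂ) →ₗ[ℂ] ℂ := LinearMap.proj i0 + s • LinearMap.proj i1 with hms
    refine case1 ms ⟨Pi.single i1 1, ?_, ?_⟩ f _ hf ?_
    · simp [hi01]
    · simp [hms, hi01, hs]
    · have key : ∀ i, ms (z i - (s * z i i1) • e0) = z i i0 := by
        intro i
        simp [hms, he0, hi01.symm]
      intro i j
      rw [key i, key j, hzz i j]
  have h2 := Continuous.ext_on (dense_compl_singleton (0 : ℂ)) hcont continuous_const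
    (fun s hs => hne s hs)
  have h3 := congrFun h2 0
  simpa using h3

/-- The dimension bound. -/
theorem dim_bound (hn : 2 ≤ n) : ∀ (r : ℕ) (V : Submodule ℂ ((Fin n → ℂ) → ℂ)),
    (∀ f ∈ V, Differentiable ℂ f) → Hyp r (V : Set ((Fin n → ℂ) → ℂ)) →
    Module.rank ℂ V ≤ ((r * (r + 1) / 2 : ℕ) : Cardinal) := by
  intro r
  induction r with
  | zero =>
    intro V hV h
    have hbot : V = ⊥ := by
      rw [eq_bot_iff]
      intro f hf
      rw [Submodule.mem_bot]
      funext z
      have hm : (LinearMap.proj (⟨0, by omega⟩ : Fin n) : (Fin n → ℂ) →ₗ[ℂ] ℂ) ≠ 0 := by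
        intro h0
        have := congrArg (fun l : (Fin n → ℂ) →ₗ[ℂ] ℂ => l (fun _ => 1)) h0
        simp at this
      have := h _ hm (fun _ => f) (fun _ => z) (fun _ => hf) (fun _ _ => rfl)
      simpa using this
    rw [hbot]
    simp
  | succ r ih =>
    intro V hV h
    by_cases hbot : V = ⊥
    · rw [hbot]; simp
    · obtain ⟨f0, hf0, hne⟩ := (Submodule.ne_bot_iff V).1 hbot
      obtain ⟨z0, hz0⟩ : ∃ z0, f0 z0 ≠ 0 := by
        by_contra hcon
        push Not at hcon
        exact hne (funext hcon)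
      set i0 : Fin n := ⟨0, by omega⟩ with hi0
      set ℓ : (Fin n → ℂ) →ₗ[ℂ] ℂ := LinearMap.proj i0 with hℓ
      have hℓ0 : ℓ ≠ 0 := by
        intro h0
        have := congrArg (fun l : (Fin n → ℂ) →ₗ[ℂ] ℂ => l (fun _ => 1)) h0
        simp [hℓ] at this
      set ρ := (res ℓ (ℓ z0)).comp V.subtype with hρ
      have h1 := LinearMap.rank_range_add_rank_ker ρ
      have h2 : Module.rank ℂ (LinearMap.range ρ) ≤ ((r + 1 : ℕ) : Cardinal) := by
        have h3 := h.rank_le ℓ hℓ0 (ℓ z0)
        rw [Submodule.span_eq] at h3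
        rw [hρ, LinearMap.range_comp, Submodule.range_subtype]
        exact h3
      have h3 : Module.rank ℂ (LinearMap.ker ρ) ≤ ((r * (r + 1) / 2 : ℕ) : Cardinal) := by
        have h4 := (Submodule.equivMapOfInjective V.subtype V.injective_subtype
          (LinearMap.ker ρ)).rank_eq
        rw [h4]
        have h5 : ∀ f ∈ (LinearMap.ker ρ).map V.subtype,
            f ∈ V ∧ ∀ z : Fin n → ℂ, z i0 = z0 i0 → f z = 0 := by
          rintro _ ⟨f, hf, rfl⟩
          refine ⟨f.2, fun z hz => ?_⟩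
          have h6 : ρ f = 0 := hf
          have h7 := congrFun h6 ⟨z, hz⟩
          exact h7
        refine ih _ (fun f hf => hV f (h5 f hf).1) ?_
        intro m hm f z hf hz
        exact minors_sub hn V hV h f0 hf0 z0 hz0 m hm f z (fun i => h5 _ (hf i)) hz
      rw [← h1]
      refine (add_le_add h2 h3).trans ?_
      have h6 : r + 1 + r * (r + 1) / 2 = (r + 1) * (r + 1 + 1) / 2 := by
        have h7 : (r + 1) * (r + 1 + 1) = r * (r + 1) + (r + 1) * 2 := by ring
        rw [h7, Nat.add_mul_div_right _ _ (by norm_num)]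
        ring
      rw [← Nat.cast_add, h6]

/-- The dimension bound for spans. -/
theorem dim_bound_span (hn : 2 ≤ n) (r : ℕ) (G : Set ((Fin n → ℂ) → ℂ))
    (hG : ∀ f ∈ G, Differentiable ℂ f) (h : Hyp r G) :
    Module.rank ℂ (Submodule.span ℂ G) ≤ ((r * (r + 1) / 2 : ℕ) : Cardinal) := by
  refine dim_bound hn r _ (fun f hf => ?_) h.span
  induction hf using Submodule.span_induction with
  | mem x hx => exact hG x hx
  | zero => exact differentiable_const 0
  | add x y _ _ hx hy => exact hx.add hy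
  | smul a x _ hx => exact hx.const_smul a

end Hyp

end Pool.Agent.Q58.HR
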