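import Mathlib
import Pool.Agent.Q58.HR.Geo

set_option autoImplicit false

open Filter Topology
open scoped Matrix

namespace Pool.Agent.Q58.HR

variable {n : ℕ}

theorem congr_diff {f g : ℂ → ℂ} (h : Differentiable ℂ f) (e : ∀ s, g s = f s) :
    Differentiable ℂ g := by
  rwa [show g = f from funext e]

theorem exists_param (hn : 2 ≤ n) (m : (Fin n → ℂ) →ₗ[ℂ] ℂ) (hm : m ≠ 0) :
    ∃ L : (Fin (n - 1) → ℂ) →ₗ[ℂ] (Fin n → ℂ), Function.Injective L ∧
      ∀ z, m z = 0 → ∃ x, L x = z := by
  have h1 := Module.Dual.finrank_ker_add_one_of_ne_zero hm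
  have h2 : Module.finrank ℂ (Fin (n - 1) → ℂ) = Module.finrank ℂ (LinearMap.ker m) := by
    simp only [Module.finrank_fin_fun] at h1 ⊢
    omega
  refine ⟨(LinearMap.ker m).subtype.comp (LinearEquiv.ofFinrankEq _ _ h2).toLinearMap, ?_, ?_⟩
  · exact (Subtype.val_injective).comp (LinearEquiv.ofFinrankEq _ _ h2).injective
  · intro z hz
    refine ⟨(LinearEquiv.ofFinrankEq _ _ h2).symm ⟨z, hz⟩, ?_⟩
    simp

theorem exists_functional (hn : 2 ≤ n) (L : (Fin (n - 1) → ℂ) →ₗ[ℂ] (Fin n → ℂ)) :
    ∃ m : (Fin n → ℂ) →ₗ[ℂ] ℂ, m ≠ 0 ∧ ∀ x, m (L x) = 0 := by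
  have hlt : LinearMap.range L < ⊤ := by
    rw [lt_top_iff_ne_top]
    intro h
    have h1 := LinearMap.finrank_range_le L
    rw [h] at h1
    simp only [finrank_top, Module.finrank_fin_fun] at h1
    omega
  obtain ⟨m, hm, hle⟩ := Submodule.exists_le_ker_of_lt_top _ hlt
  exact ⟨m, hm, fun x => hle ⟨x, rfl⟩⟩

/-- A product through a smaller index set has zero determinant. -/
theorem det_mul_small (k : ℕ) (A : Matrix (Fin (k + 1)) (Fin k) ℂ)
    (B : Matrix (Fin k) (Fin (k + 1)) ℂ) : (A * B).det = 0 := by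
  by_contra h
  have h1 : IsUnit (A * B) := by
    rw [Matrix.isUnit_iff_isUnit_det]
    exact isUnit_iff_ne_zero.2 h
  have h2 := Matrix.rank_of_isUnit _ h1
  have h3 := Matrix.rank_mul_le_left A B
  have h4 := A.rank_le_width
  rw [h2, Fintype.card_fin] at h3
  omega

/-- The hypothesis of the problem on one function. -/
def HypK (k : ℕ) (p : (Fin n → ℂ) → ℝ) : Prop :=
  ∀ (a : Fin n → ℂ) (L : (Fin (n - 1) → ℂ) →ₗ[ℂ] (Fin n → ℂ)),
    Function.Injective L →
    ∃ (ε : Fin k → ℝ) (g : Fin k → (Fin (n - 1) → ℂ) → ℂ),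
      (∀ j, ε j = 1 ∨ ε j = -1) ∧ (∀ j, Differentiable ℂ (g j)) ∧
      ∀ x, p (a + L x) = ∑ j, ε j * Complex.normSq (g j x)

section

variable {p : (Fin n → ℂ) → ℝ} {P : (Fin n → ℂ) → (Fin n → ℂ) → ℂ}

theorem herm (hP : Differentiable ℂ (fun q : (Fin n → ℂ) × (Fin n → ℂ) => P q.1 q.2))
    (hPp : ∀ z, P z (star z) = p z) (x y : Fin n → ℂ) :
    P x y = (starRingEnd ℂ) (P (star y) (star x)) := by
  have h := polar (fun x y => P x y - (starRingEnd ℂ) (P (star y) (star x))) ?_ ?_ x y
  · exact sub_eq_zero.1 h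
  · intro a b
    have h1 : Differentiable ℂ fun s : ℂ => P (a + s • b) (star a + s • star b) :=
      hP.comp (f := fun s : ℂ => (a + s • b, star a + s • star b)) (by fun_prop)
    have h2 := conj_entire _ h1
    refine h1.sub ?_
    refine congr_diff h2 fun s => ?_
    congr 2
    · rw [star_add, star_smul, star_star, star_star]; rfl
    · rw [star_add, star_smul]; rfl
  · intro x
    simp only [star_star]
    rw [hPp x, Complex.conj_ofReal, sub_self]

/-- Polarization of a representation on a hyperplane. -/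
theorem polar_rep {k : ℕ} (hP : Differentiable ℂ (fun q : (Fin n → ℂ) × (Fin n → ℂ) => P q.1 q.2))
    (hPp : ∀ z, P z (star z) = p z) (a : Fin n → ℂ)
    (L : (Fin (n - 1) → ℂ) →ₗ[ℂ] (Fin n → ℂ)) (ε : Fin k → ℝ)
    (g : Fin k → (Fin (n - 1) → ℂ) → ℂ) (hg : ∀ j, Differentiable ℂ (g j))
    (hsum : ∀ x, p (a + L x) = ∑ j, ε j * Complex.normSq (g j x)) (x y : Fin (n - 1) → ℂ) :
    P (a + L x) (star (a + L y)) = ∑ j, ε j * g j x * (starRingEnd ℂ) (g j y) := by
  have h := polar (fun x y => P (a + L x) (star (a + L (star y))) -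
    ∑ j, ε j * g j x * (starRingEnd ℂ) (g j (star y))) ?_ ?_ x (star y)
  · rw [star_star] at h
    exact sub_eq_zero.1 h
  · intro u v
    refine Differentiable.sub ?_ (Differentiable.fun_sum fun j _ => ?_)
    · have h1 : Differentiable ℂ fun s : ℂ => P ((a + L u) + s • L v)
          (star (a + L u) + s • star (L v)) :=
        hP.comp (f := fun s : ℂ => ((a + L u) + s • L v, star (a + L u) + s • star (L v)))
          (by fun_prop)
      refine congr_diff h1 fun s => ?_
      congr 1
      · rw [map_add, map_smul, add_assoc]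
      · rw [star_add (star u), star_star, star_smul, star_star, map_add, map_smul, ← add_assoc,
          star_add (a + L u), star_smul, star_star]
    · have h1 : Differentiable ℂ fun s : ℂ => g j (u + s • v) :=
        (hg j).comp (f := fun s : ℂ => u + s • v) (by fun_prop)
      have h2 := conj_entire _ h1
      refine (h1.const_mul _).mul ?_
      refine congr_diff h2 fun s => ?_
      congr 2
      rw [star_add, star_smul, star_star, star_star]; rfl
  · intro x
    simp only [star_star]
    rw [hPp, hsum]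
    push_cast
    rw [sub_eq_zero]
    refine Finset.sum_congr rfl fun j _ => ?_
    rw [mul_assoc, Complex.mul_conj]

/-- Minors at points of one hyperplane. -/
theorem minor_common (hn : 2 ≤ n) {k : ℕ}
    (hP : Differentiable ℂ (fun q : (Fin n → ℂ) × (Fin n → ℂ) => P q.1 q.2))
    (hPp : ∀ z, P z (star z) = p z) (hyp : HypK k p)
    (m : (Fin n → ℂ) →ₗ[ℂ] ℂ) (hm : m ≠ 0) (z w : Fin (k + 1) → Fin n → ℂ) (τ : ℂ)
    (hz : ∀ i, m (z i) = τ) (hw : ∀ i, m (w i) = τ) :
    (Matrix.of fun i j => P (z i) (star (w j))).det = 0 := by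
  obtain ⟨L, hL, hsurj⟩ := exists_param hn m hm
  obtain ⟨ε, g, -, hg, hsum⟩ := hyp (z 0) L hL
  have hx : ∀ i, ∃ x, L x = z i - z 0 := fun i => hsurj _ (by rw [map_sub, hz, hz, sub_self])
  have hy : ∀ i, ∃ x, L x = w i - z 0 := fun i => hsurj _ (by rw [map_sub, hz, hw, sub_self])
  choose x hx using hx
  choose y hy using hy
  have h1 : (Matrix.of fun i j => P (z i) (star (w j))) =
      (Matrix.of fun (i : Fin (k + 1)) (l : Fin k) => (ε l : ℂ) * g l (x i)) *
      (Matrix.of fun (l : Fin k) (j : Fin (k + 1)) => (starRingEnd ℂ) (g l (y j))) := by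
    ext i j
    rw [Matrix.mul_apply]
    simp only [Matrix.of_apply]
    rw [← polar_rep hP hPp (z 0) L ε g hg hsum (x i) (y j), hx, hy]
    simp
  rw [h1]
  exact det_mul_small k _ _

/-- Minors at points of two hyperplanes. -/
theorem minor_two (hn : 2 ≤ n) {k : ℕ}
    (hP : Differentiable ℂ (fun q : (Fin n → ℂ) × (Fin n → ℂ) => P q.1 q.2))
    (hPp : ∀ z, P z (star z) = p z) (hyp : HypK k p)
    (m : (Fin n → ℂ) →ₗ[ℂ] ℂ) (hm : m ≠ 0) (m' : (Fin n → ℂ) →ₗ[ℂ] ℂ) (hm' : m' ≠ 0)
    (z w : Fin (k + 1) → Fin n → ℂ) (τ τ' : ℂ)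
    (hz : ∀ i, m (z i) = τ) (hw : ∀ i, m' (w i) = τ') :
    (Matrix.of fun i j => P (z i) (star (w j))).det = 0 := by
  obtain ⟨L, -, hL⟩ := exists_param hn m hm
  obtain ⟨M, -, hM⟩ := exists_param hn m' hm'
  have hx : ∀ i, ∃ x, L x = z i - z 0 := fun i => hL _ (by rw [map_sub, hz, hz, sub_self])
  have hy : ∀ i, ∃ x, M x = w i - w 0 := fun i => hM _ (by rw [map_sub, hw, hw, sub_self])
  choose x hx using hx
  choose y hy using hy
  set a := z 0 with ha
  set b := w 0 with hb
  -- moving points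
  set Z : Fin (k + 1) → ℂ → Fin n → ℂ := fun i s => a + L (x i) + s • ((b + M (x i)) - (a + L (x i)))
    with hZ
  set W : Fin (k + 1) → ℂ → Fin n → ℂ := fun i s => a + L (y i) + s • ((b + M (y i)) - (a + L (y i)))
    with hW
  have hzero : ∀ s : ℂ, (Matrix.of fun i j => P (Z i s) (star (W j s))).det = 0 := by
    intro s
    obtain ⟨ms, hms, hms0⟩ := exists_functional hn (L + s • (M - L))
    have key : ∀ u, ms (a + L u + s • ((b + M u) - (a + L u))) = ms (a + s • (b - a)) := by
      intro u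
      have h1 := hms0 u
      have h2 : a + L u + s • ((b + M u) - (a + L u)) =
          (a + s • (b - a)) + (L + s • (M - L)) u := by
        simp only [LinearMap.add_apply, LinearMap.smul_apply, LinearMap.sub_apply, smul_sub,
          smul_add]
        abel
      rw [h2, map_add, h1, add_zero]
    exact minor_common hn hP hPp hyp ms hms _ _ (ms (a + s • (b - a))) (fun i => key _)
      (fun i => key _)
  have h := polar (X := ℂ) (fun s t => (Matrix.of fun i j => P (Z i s) (star (W j (star t)))).det)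
    ?_ ?_ 0 1
  · have h1 : ∀ i, Z i 0 = z i := by
      intro i
      simp only [hZ, zero_smul, add_zero, hx]
      rw [ha]; abel
    have h2 : ∀ j, W j (star 1) = w j := by
      intro j
      simp only [hW, star_one, one_smul, hy]
      rw [hb]; abel
    simpa only [h1, h2] using h
  · intro u v
    refine det_diff _ fun i j => ?_
    simp only [Matrix.of_apply, hZ, hW]
    have h1 : Differentiable ℂ fun s : ℂ =>
        P (a + L (x i) + (u + s • v) • ((b + M (x i)) - (a + L (x i))))
          (star (a + L (y j)) + (star u + s • star v) • star ((b + M (y j)) - (a + L (y j)))) :=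
      hP.comp (f := fun s : ℂ => (a + L (x i) + (u + s • v) • ((b + M (x i)) - (a + L (x i))),
        star (a + L (y j)) + (star u + s • star v) • star ((b + M (y j)) - (a + L (y j)))))
        (by fun_prop)
    refine congr_diff h1 fun s => ?_
    congr 1
    rw [star_add (a + L (y j)), star_smul _ ((b + M (y j)) - (a + L (y j))), star_star]
  · intro s
    simp only [star_star]
    exact hzero s

/-- The conclusion of the problem, given the entire polarization. -/
theorem main_of_P (hn : 2 ≤ n) {k c1 c : ℕ} (hc1 : c1 = k * (k + 1) / 2)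
    (hc : c = c1 * (c1 + 1) / 2)
    (hP : Differentiable ℂ (fun q : (Fin n → ℂ) × (Fin n → ℂ) => P q.1 q.2))
    (hPp : ∀ z, P z (star z) = p z) (hyp : HypK k p) :
    ∃ (ε : Fin c → ℝ) (f : Fin c → (Fin n → ℂ) → ℂ),
      (∀ j, ε j = 1 ∨ ε j = -1) ∧ (∀ j, Differentiable ℂ (f j)) ∧
      ∀ z, p z = ∑ j, ε j * Complex.normSq (f j z) := by
  set K : (Fin n → ℂ) → (Fin n → ℂ) → ℂ := fun z w => P z (star w) with hK
  have hKh : ∀ z w, K w z = (starRingEnd ℂ) (K z w) := by
    intro z w
    simp only [hK]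
    rw [herm hP hPp w (star z), star_star]
  have hKd : ∀ w, Differentiable ℂ fun z => K z w := by
    intro w
    exact hP.comp (f := fun z : Fin n → ℂ => (z, star w)) (by fun_prop)
  -- first step
  have step1 : ∀ (m' : (Fin n → ℂ) →ₗ[ℂ] ℂ), m' ≠ 0 → ∀ τ' : ℂ,
      Module.rank ℂ (Submodule.span ℂ {f | ∃ w, m' w = τ' ∧ f = fun z => K z w}) ≤ (c1 : ℕ) := by
    intro m' hm' τ'
    rw [hc1]
    refine dim_bound_span hn k _ ?_ ?_
    · rintro f ⟨w, -, rfl⟩
      exact hKd w
    · intro m hm f z hf hz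
      choose w hw hfw using hf
      have h1 := minor_two hn hP hPp hyp m hm m' hm' z w (m (z 0)) τ' (fun i => hz i 0) hw
      rw [← h1, ← Matrix.det_transpose]
      congr 1
      ext i j
      simp only [Matrix.transpose_apply, Matrix.of_apply]
      rw [hfw j]
  have step2 : Module.rank ℂ (Submodule.span ℂ (Set.range fun w => fun z => K z w)) ≤ (c : ℕ) := by
    rw [hc]
    refine dim_bound_span hn c1 _ ?_ ?_
    · rintro _ ⟨w, rfl⟩
      exact hKd w
    · intro m hm f z hf hz
      choose w hw using hf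
      have h1 := det_eq_zero_of_rank_le c1 _ (step1 m hm (m (z 0))) (fun i => fun u => K u (z i))
        w (fun i => Submodule.subset_span ⟨z i, hz _ _, rfl⟩)
      have h2 : (Matrix.of fun i j => f i (z j)) =
          ((starRingEnd ℂ).mapMatrix (Matrix.of fun i j => K (w j) (z i)))ᵀ := by
        ext i j
        simp only [Matrix.transpose_apply, Matrix.of_apply, RingHom.mapMatrix_apply,
          Matrix.map_apply]
        rw [← hKh, ← hw i]
      rw [h2, Matrix.det_transpose, ← RingHom.map_det, h1, map_zero]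
  obtain ⟨ε, f, hε, hf, hsum⟩ := lagrange c K hKh step2
  refine ⟨ε, f, hε, fun j => ?_, fun z => ?_⟩
  · have hfj := hf j
    generalize f j = F at hfj
    induction hfj using Submodule.span_induction with
    | mem x hx => obtain ⟨w, rfl⟩ := hx; exact hKd w
    | zero => exact differentiable_const 0
    | add x y _ _ hx hy => exact hx.add hy
    | smul a x _ hx => exact hx.const_smul a
  · have h1 := hsum z
    simp only [hK] at h1
    rw [hPp] at h1
    exact_mod_cast h1

end

end Pool.Agent.Q58.HR
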