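import Mathlib

set_option autoImplicit false

open Polynomial

namespace Pool.Agent.Q58.HR

theorem prod_pos_ge (U : Finset ℕ) (h : ∀ u ∈ U, 0 < u) : U.card.factorial ≤ ∏ u ∈ U, u := by
  induction U using Finset.induction_on_max with
  | empty => simp
  | insert a s ha ih =>
    have hna : a ∉ s := fun hs => lt_irrefl _ (ha a hs)
    rw [Finset.card_insert_of_notMem hna, Finset.prod_insert hna, Nat.factorial_succ]
    have hsub : s ⊆ Finset.Ioo 0 a := fun x hx => by
      rw [Finset.mem_Ioo]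
      exact ⟨h x (Finset.mem_insert_of_mem hx), ha x hx⟩
    have hcard := Finset.card_le_card hsub
    rw [Nat.card_Ioo] at hcard
    have ha0 : 0 < a := h a (Finset.mem_insert_self a s)
    exact Nat.mul_le_mul (by omega) (ih fun u hu => h u (Finset.mem_insert_of_mem hu))

theorem prod_dist_ge (T : Finset ℕ) (m : ℕ) (hT : T.card = m + 1) (i : ℕ) (hi : i ∈ T) :
    (m.factorial : ℝ) / 2 ^ m ≤ ∏ j ∈ T.erase i, |(i : ℝ) - j| := by
  set A := (T.erase i).filter (· < i) with hA
  set B := (T.erase i).filter (fun j => ¬ j < i) with hB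
  have hcard : A.card + B.card = m := by
    rw [hA, hB, Finset.card_filter_add_card_filter_not, Finset.card_erase_of_mem hi, hT]
    rfl
  have h1 : (A.card.factorial : ℝ) ≤ ∏ j ∈ A, |(i : ℝ) - j| := by
    have hinj : Set.InjOn (fun j => i - j) (A : Set ℕ) := by
      intro x hx y hy hxy
      have hx' := (Finset.mem_filter.1 hx).2
      have hy' := (Finset.mem_filter.1 hy).2
      simp only at hxy
      omega
    have h := prod_pos_ge (A.image fun j => i - j) (by
      intro u hu
      obtain ⟨j, hj, rfl⟩ := Finset.mem_image.1 hu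
      have := (Finset.mem_filter.1 hj).2
      omega)
    rw [Finset.card_image_of_injOn hinj, Finset.prod_image hinj] at h
    have h' : (A.card.factorial : ℝ) ≤ ∏ j ∈ A, ((i - j : ℕ) : ℝ) := by exact_mod_cast h
    refine h'.trans (le_of_eq ?_)
    refine Finset.prod_congr rfl fun j hj => ?_
    have := (Finset.mem_filter.1 hj).2
    rw [Nat.cast_sub this.le, abs_of_nonneg]
    rw [sub_nonneg]
    exact_mod_cast this.le
  have h2 : (B.card.factorial : ℝ) ≤ ∏ j ∈ B, |(i : ℝ) - j| := by
    have hlt : ∀ j ∈ B, i < j := by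
      intro j hj
      have h3 := (Finset.mem_filter.1 hj).2
      have h4 := (Finset.mem_erase.1 (Finset.mem_filter.1 hj).1).1
      omega
    have hinj : Set.InjOn (fun j => j - i) (B : Set ℕ) := by
      intro x hx y hy hxy
      have hx' := hlt x hx
      have hy' := hlt y hy
      simp only at hxy
      omega
    have h := prod_pos_ge (B.image fun j => j - i) (by
      intro u hu
      obtain ⟨j, hj, rfl⟩ := Finset.mem_image.1 hu
      have := hlt j hj
      omega)
    rw [Finset.card_image_of_injOn hinj, Finset.prod_image hinj] at h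
    have h' : (B.card.factorial : ℝ) ≤ ∏ j ∈ B, ((j - i : ℕ) : ℝ) := by exact_mod_cast h
    refine h'.trans (le_of_eq ?_)
    refine Finset.prod_congr rfl fun j hj => ?_
    have := hlt j hj
    rw [Nat.cast_sub this.le, abs_sub_comm, abs_of_nonneg]
    rw [sub_nonneg]
    exact_mod_cast this.le
  have h3 : ∏ j ∈ T.erase i, |(i : ℝ) - j| = (∏ j ∈ A, |(i : ℝ) - j|) * ∏ j ∈ B, |(i : ℝ) - j| := by
    rw [hA, hB, Finset.prod_filter_mul_prod_filter_not]
  rw [h3]
  have h4 : (m.factorial : ℝ) ≤ 2 ^ m * (A.card.factorial * B.card.factorial) := by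
    have h5 := Nat.choose_mul_factorial_mul_factorial (n := m) (k := A.card) (by omega)
    have h6 : m - A.card = B.card := by omega
    rw [h6] at h5
    have h7 : (m.choose A.card : ℝ) ≤ 2 ^ m := by exact_mod_cast Nat.choose_le_two_pow m A.card
    rw [← h5]
    push_cast
    rw [mul_assoc]
    exact mul_le_mul_of_nonneg_right h7 (by positivity)
  rw [div_le_iff₀ (by positivity)]
  calc (m.factorial : ℝ) ≤ 2 ^ m * (A.card.factorial * B.card.factorial) := h4
    _ ≤ 2 ^ m * ((∏ j ∈ A, |(i : ℝ) - j|) * ∏ j ∈ B, |(i : ℝ) - j|) := by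
        refine mul_le_mul_of_nonneg_left ?_ (by positivity)
        exact mul_le_mul h1 h2 (by positivity) ((Nat.cast_nonneg _).trans h1)
    _ = _ := by ring

/-- Lagrange interpolation at integer nodes. -/
theorem lag (m : ℕ) (P : ℂ[X]) (hP : P.natDegree ≤ m) (T : Finset ℕ) (hT : T.card = m + 1)
    (b : ℝ) (hb : ∀ i ∈ T, ‖P.eval (i : ℂ)‖ ≤ b) (z : ℂ) (D : ℝ)
    (hD : ∀ j ∈ T, ‖z - j‖ ≤ D) :
    ‖P.eval z‖ ≤ b * ((m + 1) * ((2 * D) ^ m / m.factorial)) := by
  have hinj : Set.InjOn (fun i : ℕ => (i : ℂ)) (T : Set ℕ) := fun a _ c _ h =>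
    Nat.cast_injective h
  have hdeg : P.degree < T.card := by
    rw [hT]
    refine (Polynomial.degree_le_natDegree).trans_lt ?_
    exact_mod_cast Nat.lt_succ_of_le hP
  obtain ⟨i0, hi0⟩ : T.Nonempty := by
    rw [← Finset.card_pos]; omega
  have hb0 : 0 ≤ b := (norm_nonneg _).trans (hb i0 hi0)
  have hD0 : 0 ≤ D := (norm_nonneg _).trans (hD i0 hi0)
  have h1 := Lagrange.eq_interpolate hinj hdeg
  rw [h1, Lagrange.interpolate_apply, Polynomial.eval_finsetSum]
  have h2 : ∀ i ∈ T, ‖(C (P.eval (i : ℂ)) * Lagrange.basis T (fun i : ℕ => (i : ℂ)) i).eval z‖ ≤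
      b * ((2 * D) ^ m / m.factorial) := by
    intro i hi
    rw [Polynomial.eval_mul, Polynomial.eval_C, norm_mul]
    refine mul_le_mul (hb i hi) ?_ (norm_nonneg _) hb0
    rw [Lagrange.basis, Polynomial.eval_prod, norm_prod]
    have h3 : ∀ j ∈ T.erase i, ‖(Lagrange.basisDivisor (i : ℂ) (j : ℂ)).eval z‖ ≤
        D * |(i : ℝ) - j|⁻¹ := by
      intro j hj
      rw [Lagrange.basisDivisor, Polynomial.eval_mul, Polynomial.eval_C, Polynomial.eval_sub,
        Polynomial.eval_X, Polynomial.eval_C, norm_mul, norm_inv]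
      have h4 : ‖(i : ℂ) - j‖ = |(i : ℝ) - j| := by
        have : (i : ℂ) - j = (((i : ℝ) - j : ℝ) : ℂ) := by push_cast; rfl
        rw [this, Complex.norm_real, Real.norm_eq_abs]
      rw [h4, mul_comm]
      exact mul_le_mul_of_nonneg_right (hD j (Finset.mem_of_mem_erase hj)) (by positivity)
    refine (Finset.prod_le_prod (fun j _ => norm_nonneg _) h3).trans ?_
    rw [Finset.prod_mul_distrib, Finset.prod_const, Finset.card_erase_of_mem hi, hT,
      Finset.prod_inv_distrib]
    have h5 := prod_dist_ge T m hT i hi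
    have h6 : (0 : ℝ) < m.factorial / 2 ^ m := by positivity
    calc D ^ (m + 1 - 1) * (∏ j ∈ T.erase i, |(i : ℝ) - j|)⁻¹
        ≤ D ^ m * (m.factorial / 2 ^ m : ℝ)⁻¹ := by
          refine mul_le_mul_of_nonneg_left ?_ (by positivity)
          exact inv_anti₀ h6 h5
      _ = (2 * D) ^ m / m.factorial := by
          rw [inv_div, mul_pow]; ring
  refine (norm_sum_le _ _).trans ((Finset.sum_le_sum h2).trans ?_)
  rw [Finset.sum_const, hT, nsmul_eq_mul]
  push_cast
  apply le_of_eq
  ring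

theorem num_bound (m : ℕ) (K : ℝ) (hK : 0 ≤ K) :
    ((m : ℝ) + 1) * ((K * (m + 1)) ^ m / m.factorial) ≤ 3 * (6 * K) ^ m := by
  have h7 : ((m : ℝ) + 1) ^ (m + 1) / ((m + 1).factorial : ℝ) ≤ Real.exp (m + 1) :=
    Real.pow_div_factorial_le_exp _ (by positivity) _
  have h8 : ((m : ℝ) + 1) ^ (m + 1) / ((m + 1).factorial : ℝ) = ((m : ℝ) + 1) ^ m / m.factorial := by
    rw [Nat.factorial_succ]
    push_cast
    rw [pow_succ]
    field_simp
  have h9 : Real.exp (m + 1) ≤ 3 ^ (m + 1) := by
    have : Real.exp ((m : ℝ) + 1) = Real.exp 1 ^ (m + 1) := by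
      rw [← Real.exp_nat_mul]
      push_cast
      ring_nf
    rw [this]
    exact pow_le_pow_left₀ (Real.exp_pos 1).le (Real.exp_one_lt_d9.le.trans (by norm_num)) _
  have h10 : ((m : ℝ) + 1) ≤ 2 ^ m := by
    have : m + 1 ≤ 2 ^ m := Nat.lt_two_pow_self
    exact_mod_cast this
  calc ((m : ℝ) + 1) * ((K * (m + 1)) ^ m / m.factorial)
      = K ^ m * (((m : ℝ) + 1) * (((m : ℝ) + 1) ^ m / m.factorial)) := by
        rw [mul_pow]; ring
    _ ≤ K ^ m * (2 ^ m * 3 ^ (m + 1)) := by
        refine mul_le_mul_of_nonneg_left ?_ (by positivity)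
        refine mul_le_mul h10 ?_ (by positivity) (by positivity)
        rw [← h8]
        exact h7.trans h9
    _ = 3 * (6 * K) ^ m := by
        rw [show (6 : ℝ) * K = K * 2 * 3 by ring, mul_pow, mul_pow, pow_succ]
        ring

end Pool.Agent.Q58.HR
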