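import Mathlib
import Pool.Agent.Q58.HR.Lag

set_option autoImplicit false

open Polynomial MeasureTheory Metric Filter Topology

namespace Pool.Agent.Q58.HR

variable {κ : Type} [Fintype κ]

/-- The complex vector of a real vector. -/
def cx (x : κ → ℝ) : κ → ℂ := fun i => (x i : ℂ)

theorem line_poly (F : MvPolynomial κ ℂ) (m : ℕ) (hF : F.totalDegree ≤ m) (u v : κ → ℂ) :
    ∃ f : ℂ[X], f.natDegree ≤ m ∧ ∀ s, f.eval s = MvPolynomial.eval (u + s • v) F := by
  refine ⟨MvPolynomial.aeval (fun i => C (u i) + C (v i) * X) F, ?_, fun s => ?_⟩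
  · have h := MvPolynomial.aeval_natDegree_le F hF (fun i => C (u i) + C (v i) * X) (n := 1)
      (fun i => by compute_degree)
    simpa using h
  · have h := congrArg (fun φ : MvPolynomial κ ℂ →ₐ[ℂ] ℂ => φ F)
      (MvPolynomial.comp_aeval (R := ℂ) (fun i => C (u i) + C (v i) * X)
        (Polynomial.aeval s : ℂ[X] →ₐ[ℂ] ℂ))
    simp only [AlgHom.comp_apply] at h
    rw [Polynomial.coe_aeval_eq_eval] at h
    rw [h, MvPolynomial.aeval_eq_eval]
    simp only [Polynomial.eval_add, Polynomial.eval_C, Polynomial.eval_mul, Polynomial.eval_X]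
    congr 2
    funext i
    simp [mul_comm]

theorem continuous_cx : Continuous (cx : (κ → ℝ) → κ → ℂ) :=
  continuous_pi fun i => Complex.continuous_ofReal.comp (continuous_apply i)

/-- The set where a sequence of polynomials is bounded. -/
def good (F : ℕ → MvPolynomial κ ℂ) (R : ℝ) (M : ℕ) : Set (κ → ℝ) :=
  {x | ∀ m, ‖MvPolynomial.eval (cx x) (F m)‖ * R ^ m ≤ M}

theorem isClosed_good (F : ℕ → MvPolynomial κ ℂ) (R : ℝ) (M : ℕ) : IsClosed (good F R M) := by
  have : good F R M = ⋂ m, {x | ‖MvPolynomial.eval (cx x) (F m)‖ * R ^ m ≤ M} := by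
    ext x; simp [good]
  rw [this]
  refine isClosed_iInter fun m => ?_
  refine isClosed_le ?_ continuous_const
  refine Continuous.mul ?_ continuous_const
  exact ((MvPolynomial.continuous_eval (F m)).comp continuous_cx).norm

theorem small_bad (F : ℕ → MvPolynomial κ ℂ) (R : ℝ)
    (hpt : ∀ x : κ → ℝ, ∃ M : ℝ, ∀ m, ‖MvPolynomial.eval (cx x) (F m)‖ * R ^ m ≤ M)
    (η : ENNReal) (hη : 0 < η) :
    ∃ M : ℕ, volume (closedBall (0 : κ → ℝ) 1 \ good F R M) < η := by
  have h1 : Tendsto (volume ∘ fun M : ℕ => closedBall (0 : κ → ℝ) 1 \ good F R M) atTop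
      (𝓝 (volume (⋂ M : ℕ, closedBall (0 : κ → ℝ) 1 \ good F R M))) := by
    apply tendsto_measure_iInter_atTop
    · intro M
      exact (isClosed_closedBall.measurableSet.diff
        (isClosed_good F R M).measurableSet).nullMeasurableSet
    · intro M M' hMM' x hx
      refine ⟨hx.1, fun h => hx.2 fun m => (h m).trans ?_⟩
      exact_mod_cast hMM'
    · refine ⟨0, ?_⟩
      refine ((measure_mono Set.diff_subset).trans_lt ?_).ne
      exact measure_closedBall_lt_top
  have h2 : (⋂ M : ℕ, closedBall (0 : κ → ℝ) 1 \ good F R M) = ∅ := by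
    rw [Set.eq_empty_iff_forall_notMem]
    intro x hx
    obtain ⟨M, hM⟩ := hpt x
    obtain ⟨M', hM'⟩ := exists_nat_ge M
    have h3 := Set.mem_iInter.1 hx M'
    exact h3.2 fun m => (hM m).trans hM'
  rw [h2, measure_empty] at h1
  exact (h1.eventually (gt_mem_nhds hη)).exists

theorem preimage_meas (x : κ → ℝ) (t : ℝ) (ht : 1 / 2 ≤ t) (S : Set (κ → ℝ)) :
    volume {y : κ → ℝ | x + t • (y - x) ∈ S} ≤ 2 ^ (Fintype.card κ) * volume S := by
  have h1 : {y : κ → ℝ | x + t • (y - x) ∈ S} =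
      (t • ·) ⁻¹' ((fun y => (x - t • x) + y) ⁻¹' S) := by
    ext y
    simp only [Set.mem_setOf_eq, Set.mem_preimage, smul_sub]
    rw [show x + (t • y - t • x) = x - t • x + t • y by abel]
  rw [h1, Measure.addHaar_preimage_smul volume (by linarith : t ≠ 0), measure_preimage_add]
  rw [Module.finrank_fintype_fun_eq_card]
  refine mul_le_mul_left ?_ _
  have h2 : |(t ^ Fintype.card κ)⁻¹| ≤ 2 ^ Fintype.card κ := by
    rw [abs_inv, abs_pow, abs_of_pos (by linarith : 0 < t), ← inv_pow]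
    refine pow_le_pow_left₀ (by positivity) ?_ _
    rw [inv_le_comm₀ (by linarith) (by norm_num)]
    linarith
  calc ENNReal.ofReal |(t ^ Fintype.card κ)⁻¹| ≤ ENNReal.ofReal (2 ^ Fintype.card κ) :=
        ENNReal.ofReal_le_ofReal h2
    _ = 2 ^ Fintype.card κ := by
        rw [ENNReal.ofReal_pow (by norm_num)]
        norm_num

theorem exists_nodes (A : Set (κ → ℝ)) (hA : MeasurableSet A)
    (hsmall : 2 * (2 ^ (Fintype.card κ) * volume (closedBall (0 : κ → ℝ) 1 \ A)) ≤
      volume (closedBall (0 : κ → ℝ) 1))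
    (m : ℕ) (x : κ → ℝ) (hx : x ∈ closedBall (0 : κ → ℝ) 1) :
    ∃ y ∈ closedBall (0 : κ → ℝ) 1, ∃ T : Finset ℕ, T.card = m + 1 ∧
      ∀ i ∈ T, i < 2 * (m + 1) ∧
        x + (((2 * (m + 1) : ℕ) + i : ℝ) / (2 * (2 * (m + 1) : ℕ))) • (y - x) ∈ A := by
  classical
  set N : ℕ := 2 * (m + 1) with hN
  have hN0 : (0 : ℝ) < N := by rw [hN]; positivity
  set B := closedBall (0 : κ → ℝ) 1 with hB
  set t : ℕ → ℝ := fun i => ((N : ℝ) + i) / (2 * N) with ht
  have ht1 : ∀ i, 1 / 2 ≤ t i := by
    intro i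
    simp only [ht]
    rw [div_le_div_iff₀ (by norm_num) (by positivity)]
    have : (0 : ℝ) ≤ i := Nat.cast_nonneg i
    linarith
  have ht2 : ∀ i < N, t i ≤ 1 := by
    intro i hi
    simp only [ht]
    rw [div_le_one (by positivity)]
    have : (i : ℝ) ≤ N := by exact_mod_cast hi.le
    linarith
  set S := B \ A with hS
  have hBpos : 0 < volume B := measure_closedBall_pos volume _ (by norm_num)
  have hBfin : volume B ≠ ⊤ := measure_closedBall_lt_top.ne
  by_contra hcon
  push Not at hcon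
  -- the bad sets
  set bad : ℕ → Set (κ → ℝ) := fun i => {y | x + t i • (y - x) ∈ S} with hbad
  have hbadm : ∀ i, MeasurableSet (bad i) := by
    intro i
    have hc : Continuous fun y : κ → ℝ => x + t i • (y - x) := by fun_prop
    exact hc.measurable (isClosed_closedBall.measurableSet.diff hA)
  have hcount : ∀ y ∈ B, (m + 2 : ENNReal) ≤
      ∑ i ∈ Finset.range N, (bad i).indicator (fun _ => (1 : ENNReal)) y := by
    intro y hy
    set G := (Finset.range N).filter (fun i => x + t i • (y - x) ∈ A) with hG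
    set Bd := (Finset.range N).filter (fun i => ¬ x + t i • (y - x) ∈ A) with hBd
    have hGc : G.card ≤ m := by
      by_contra hlt
      push Not at hlt
      obtain ⟨T, hTG, hTc⟩ := Finset.exists_subset_card_eq (show m + 1 ≤ G.card by omega)
      obtain ⟨i, hiT, hi⟩ := hcon y hy T hTc
      have h3 := Finset.mem_filter.1 (hTG hiT)
      exact hi (Finset.mem_range.1 h3.1) h3.2
    have hcard : G.card + Bd.card = N := by
      rw [hG, hBd, Finset.card_filter_add_card_filter_not, Finset.card_range]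
    have hBc : m + 2 ≤ Bd.card := by omega
    have h4 : ∑ i ∈ Bd, (bad i).indicator (fun _ => (1 : ENNReal)) y ≤
        ∑ i ∈ Finset.range N, (bad i).indicator (fun _ => (1 : ENNReal)) y :=
      Finset.sum_le_sum_of_subset (Finset.filter_subset _ _)
    refine le_trans ?_ h4
    have h5 : ∀ i ∈ Bd, (bad i).indicator (fun _ => (1 : ENNReal)) y = 1 := by
      intro i hi
      have h6 := Finset.mem_filter.1 hi
      rw [Set.indicator_of_mem]
      refine ⟨?_, h6.2⟩
      have h7 := (convex_closedBall (0 : κ → ℝ) 1).add_smul_sub_mem hx hy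
        (t := t i) ⟨by linarith [ht1 i], ht2 i (Finset.mem_range.1 h6.1)⟩
      exact h7
    rw [Finset.sum_congr rfl h5, Finset.sum_const, nsmul_eq_mul, mul_one]
    exact_mod_cast hBc
  have hint : (m + 2 : ENNReal) * volume B ≤ N * (2 ^ (Fintype.card κ) * volume S) := by
    calc (m + 2 : ENNReal) * volume B = ∫⁻ _ in B, (m + 2 : ENNReal) := by
          rw [setLIntegral_const]
      _ ≤ ∫⁻ y in B, ∑ i ∈ Finset.range N, (bad i).indicator (fun _ => (1 : ENNReal)) y :=
          setLIntegral_mono' isClosed_closedBall.measurableSet hcount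
      _ = ∑ i ∈ Finset.range N, ∫⁻ y in B, (bad i).indicator (fun _ => (1 : ENNReal)) y := by
          rw [lintegral_finset_sum]
          intro i _
          exact measurable_const.indicator (hbadm i)
      _ ≤ ∑ _i ∈ Finset.range N, 2 ^ (Fintype.card κ) * volume S := by
          refine Finset.sum_le_sum fun i _ => ?_
          rw [lintegral_indicator (hbadm i)]
          simp only [lintegral_const, one_mul]
          rw [Measure.restrict_restrict (hbadm i), Measure.restrict_apply MeasurableSet.univ]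
          refine (measure_mono ?_).trans (preimage_meas x (t i) (ht1 i) S)
          intro y hy
          exact hy.2.1
      _ = N * (2 ^ (Fintype.card κ) * volume S) := by
          rw [Finset.sum_const, Finset.card_range, nsmul_eq_mul]
  have h8 : (N : ENNReal) * (2 ^ (Fintype.card κ) * volume S) ≤ (m + 1 : ENNReal) * volume B := by
    calc (N : ENNReal) * (2 ^ (Fintype.card κ) * volume S)
        = (m + 1 : ENNReal) * (2 * (2 ^ (Fintype.card κ) * volume S)) := by
          rw [hN]; push_cast; ring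
      _ ≤ _ := by gcongr
  have h9 := hint.trans h8
  have h10 : (m + 2 : ENNReal) ≤ (m + 1 : ENNReal) :=
    (ENNReal.mul_le_mul_iff_left hBpos.ne' hBfin).1 h9
  have h11 : ((m + 2 : ℕ) : ENNReal) ≤ ((m + 1 : ℕ) : ENNReal) := by exact_mod_cast h10
  have h12 := Nat.cast_le.1 h11
  omega

/-- Uniform bounds on the box from pointwise bounds. -/
theorem unif_bound (F : ℕ → MvPolynomial κ ℂ) (hF : ∀ m, (F m).totalDegree ≤ m) (R : ℝ)
    (hR : 0 < R)
    (hpt : ∀ x : κ → ℝ, ∃ M : ℝ, ∀ m, ‖MvPolynomial.eval (cx x) (F m)‖ * R ^ m ≤ M) :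
    ∃ M : ℝ, 0 ≤ M ∧ ∀ m, ∀ x ∈ closedBall (0 : κ → ℝ) 1,
      ‖MvPolynomial.eval (cx x) (F m)‖ ≤ M / R ^ m * (3 * 48 ^ m) := by
  have hBpos : 0 < volume (closedBall (0 : κ → ℝ) 1) :=
    measure_closedBall_pos volume _ (by norm_num)
  have hBfin : volume (closedBall (0 : κ → ℝ) 1) ≠ ⊤ := measure_closedBall_lt_top.ne
  obtain ⟨M, hM⟩ := small_bad F R hpt (volume (closedBall (0 : κ → ℝ) 1) /
    (2 * 2 ^ (Fintype.card κ))) (ENNReal.div_pos hBpos.ne' (by finiteness))
  refine ⟨M, Nat.cast_nonneg M, fun m x hx => ?_⟩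
  have hsmall : 2 * (2 ^ (Fintype.card κ) * volume (closedBall (0 : κ → ℝ) 1 \ good F R M)) ≤
      volume (closedBall (0 : κ → ℝ) 1) := by
    have h1 := (ENNReal.le_div_iff_mul_le (Or.inl (by positivity)) (Or.inl (by finiteness))).1 hM.le
    calc 2 * (2 ^ (Fintype.card κ) * volume (closedBall (0 : κ → ℝ) 1 \ good F R M))
        = volume (closedBall (0 : κ → ℝ) 1 \ good F R M) * (2 * 2 ^ (Fintype.card κ)) := by ring
      _ ≤ _ := h1
  obtain ⟨y, -, T, hTc, hT⟩ := exists_nodes (good F R M) (isClosed_good F R M).measurableSet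
    hsmall m x hx
  set N : ℕ := 2 * (m + 1) with hN
  have hN0 : (0 : ℝ) < N := by rw [hN]; positivity
  have hN0' : (N : ℂ) ≠ 0 := by
    have : N ≠ 0 := by omega
    exact_mod_cast this
  set u : κ → ℂ := cx x + (1 / 2 : ℂ) • (cx y - cx x) with hu
  set v : κ → ℂ := (1 / (2 * N) : ℂ) • (cx y - cx x) with hv
  obtain ⟨f, hfd, hf⟩ := line_poly (F m) m (hF m) u v
  have hnode : ∀ i ∈ T, ‖f.eval (i : ℂ)‖ ≤ M / R ^ m := by
    intro i hi
    rw [hf]
    have h1 : u + (i : ℂ) • v =
        cx (x + (((N : ℕ) + i : ℝ) / (2 * (N : ℕ))) • (y - x)) := by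
      funext k
      simp only [hu, hv, cx, Pi.add_apply, Pi.smul_apply, Pi.sub_apply, smul_eq_mul]
      push_cast
      field_simp
      ring
    rw [h1, le_div_iff₀ (by positivity)]
    exact (hT i hi).2 m
  have hD : ∀ j ∈ T, ‖(-(N : ℂ)) - j‖ ≤ 4 * ((m : ℝ) + 1) := by
    intro j hj
    have h1 := (hT j hj).1
    have h2 : (-(N : ℂ)) - j = ((-((N : ℝ) + j) : ℝ) : ℂ) := by push_cast; ring
    rw [h2, Complex.norm_real, Real.norm_eq_abs, abs_neg, abs_of_nonneg (by positivity)]
    have h3 : (j : ℝ) ≤ N := by exact_mod_cast h1.le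
    have h4 : (N : ℝ) = 2 * ((m : ℝ) + 1) := by rw [hN]; push_cast; ring
    linarith
  have h5 := lag m f hfd T hTc (M / R ^ m) hnode (-(N : ℂ)) (4 * ((m : ℝ) + 1)) hD
  have h6 : MvPolynomial.eval (cx x) (F m) = f.eval (-(N : ℂ)) := by
    rw [hf]
    congr 2
    funext k
    simp only [hu, hv, cx, Pi.add_apply, Pi.smul_apply, Pi.sub_apply, smul_eq_mul]
    field_simp
    ring
  rw [h6]
  refine h5.trans ?_
  refine mul_le_mul_of_nonneg_left ?_ (by positivity)
  have h7 := num_bound m 8 (by norm_num)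
  calc ((m : ℝ) + 1) * ((2 * (4 * ((m : ℝ) + 1))) ^ m / m.factorial)
      = ((m : ℝ) + 1) * ((8 * ((m : ℝ) + 1)) ^ m / m.factorial) := by
        congr 3; ring
    _ ≤ 3 * (6 * 8) ^ m := h7
    _ = 3 * 48 ^ m := by norm_num

end Pool.Agent.Q58.HR
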