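import Mathlib
import Pool.Agent.Q58.HR.Meas
import Pool.Agent.Q58.HR.Ker

set_option autoImplicit false

open Polynomial MeasureTheory Metric Filter Topology

namespace Pool.Agent.Q58.HR

variable {κ : Type} [Fintype κ]

/-- Bounds for the complexified polynomials. -/
theorem cx_bound (F : ℕ → MvPolynomial κ ℂ) (hF : ∀ m, (F m).totalDegree ≤ m)
    (hhom : ∀ m (t : ℂ) (z : κ → ℂ), MvPolynomial.eval (t • z) (F m) =
      t ^ m * MvPolynomial.eval z (F m))
    (hpt : ∀ (R : ℝ), 0 < R → ∀ x : κ → ℝ, ∃ M : ℝ, ∀ m,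
      ‖MvPolynomial.eval (cx x) (F m)‖ * R ^ m ≤ M)
    (ρ : ℝ) (hρ : 0 < ρ) :
    ∃ M : ℝ, ∀ m (z : κ → ℂ), ‖z‖ ≤ ρ → ‖MvPolynomial.eval z (F m)‖ ≤ M * (1 / 2) ^ m := by
  obtain ⟨M, hM0, hM⟩ := unif_bound F hF (4608 * ρ) (by positivity) (hpt _ (by positivity))
  refine ⟨9 * M, fun m z hz => ?_⟩
  -- bound on the real ball
  have hreal : ∀ w : κ → ℝ, ‖w‖ ≤ 2 * ρ →
      ‖MvPolynomial.eval (cx w) (F m)‖ ≤ 3 * M * (1 / 48) ^ m := by
    intro w hw
    have h1 : cx w = ((2 * ρ : ℝ) : ℂ) • cx ((2 * ρ)⁻¹ • w) := by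
      funext i
      simp only [cx, Pi.smul_apply, smul_eq_mul]
      push_cast
      have : (ρ : ℂ) ≠ 0 := by exact_mod_cast hρ.ne'
      field_simp
    have h2 : (2 * ρ)⁻¹ • w ∈ closedBall (0 : κ → ℝ) 1 := by
      rw [mem_closedBall_zero_iff, norm_smul, norm_inv, Real.norm_eq_abs,
        abs_of_pos (by positivity : 0 < 2 * ρ), inv_mul_le_iff₀ (by positivity)]
      simpa using hw
    rw [h1, hhom, norm_mul, norm_pow, Complex.norm_real, Real.norm_eq_abs,
      abs_of_pos (by positivity : 0 < 2 * ρ)]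
    calc (2 * ρ) ^ m * ‖MvPolynomial.eval (cx ((2 * ρ)⁻¹ • w)) (F m)‖
        ≤ (2 * ρ) ^ m * (M / (4608 * ρ) ^ m * (3 * 48 ^ m)) :=
          mul_le_mul_of_nonneg_left (hM m _ h2) (by positivity)
      _ = 3 * M * (1 / 48) ^ m := by
          have h3 : (2 * ρ) ^ m * 48 ^ m = (4608 * ρ) ^ m * (1 / 48) ^ m := by
            rw [← mul_pow, ← mul_pow]
            congr 1
            ring
          have h4 : (4608 * ρ) ^ m ≠ 0 := by positivity
          calc (2 * ρ) ^ m * (M / (4608 * ρ) ^ m * (3 * 48 ^ m))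
              = 3 * M * ((2 * ρ) ^ m * 48 ^ m) / (4608 * ρ) ^ m := by ring
            _ = 3 * M * (1 / 48) ^ m := by
                rw [h3]
                field_simp
  set x : κ → ℝ := fun i => (z i).re with hx
  set y : κ → ℝ := fun i => (z i).im with hy
  have hxn : ‖x‖ ≤ ρ := by
    rw [pi_norm_le_iff_of_nonneg hρ.le]
    intro i
    exact (Complex.abs_re_le_norm _).trans ((norm_le_pi_norm z i).trans hz)
  have hyn : ‖y‖ ≤ ρ := by
    rw [pi_norm_le_iff_of_nonneg hρ.le]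
    intro i
    exact (Complex.abs_im_le_norm _).trans ((norm_le_pi_norm z i).trans hz)
  have hm1 : ((m : ℂ) + 1) ≠ 0 := by exact_mod_cast (Nat.succ_ne_zero m)
  obtain ⟨f, hfd, hf⟩ := line_poly (F m) m (hF m) (cx x) ((1 / ((m : ℂ) + 1)) • cx y)
  have hnode : ∀ j ∈ Finset.range (m + 1), ‖f.eval (j : ℂ)‖ ≤ 3 * M * (1 / 48) ^ m := by
    intro j hj
    rw [hf]
    have h1 : cx x + (j : ℂ) • (1 / ((m : ℂ) + 1)) • cx y =
        cx (x + ((j : ℝ) / ((m : ℝ) + 1)) • y) := by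
      funext k
      simp only [cx, Pi.add_apply, Pi.smul_apply, smul_eq_mul]
      push_cast
      ring
    rw [h1]
    refine hreal _ ?_
    have h2 : ‖((j : ℝ) / ((m : ℝ) + 1)) • y‖ ≤ ρ := by
      rw [norm_smul, Real.norm_eq_abs, abs_of_nonneg (by positivity)]
      have h3 : (j : ℝ) / ((m : ℝ) + 1) ≤ 1 := by
        rw [div_le_one (by positivity)]
        have := Finset.mem_range.1 hj
        exact_mod_cast this.le
      calc (j : ℝ) / ((m : ℝ) + 1) * ‖y‖ ≤ 1 * ρ := by gcongr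
        _ = ρ := one_mul _
    calc ‖x + ((j : ℝ) / ((m : ℝ) + 1)) • y‖ ≤ ‖x‖ + ‖((j : ℝ) / ((m : ℝ) + 1)) • y‖ :=
          norm_add_le _ _
      _ ≤ 2 * ρ := by linarith
  have hD : ∀ j ∈ Finset.range (m + 1), ‖(((m : ℂ) + 1) * Complex.I) - j‖ ≤ 2 * ((m : ℝ) + 1) := by
    intro j hj
    have h1 := Finset.mem_range.1 hj
    have h2 : (j : ℝ) ≤ m + 1 := by exact_mod_cast h1.le
    have h3 : ‖((m : ℂ) + 1) * Complex.I‖ = (m : ℝ) + 1 := by
      rw [norm_mul, Complex.norm_I, mul_one]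
      have : ((m : ℂ) + 1) = (((m : ℝ) + 1 : ℝ) : ℂ) := by push_cast; rfl
      rw [this, Complex.norm_real, Real.norm_eq_abs, abs_of_pos (by positivity)]
    calc ‖(((m : ℂ) + 1) * Complex.I) - j‖ ≤ ‖((m : ℂ) + 1) * Complex.I‖ + ‖(j : ℂ)‖ :=
          norm_sub_le _ _
      _ = (m : ℝ) + 1 + j := by rw [h3, Complex.norm_natCast]
      _ ≤ _ := by linarith
  have h5 := lag m f hfd (Finset.range (m + 1)) (Finset.card_range _) _ hnode _ _ hD
  have h6 : MvPolynomial.eval z (F m) = f.eval (((m : ℂ) + 1) * Complex.I) := by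
    rw [hf]
    congr 2
    funext k
    simp only [cx, Pi.add_apply, Pi.smul_apply, smul_eq_mul, hx, hy]
    have h7 : ((m : ℂ) + 1) * Complex.I * (1 / ((m : ℂ) + 1) * ((z k).im : ℂ)) =
        (z k).im * Complex.I := by
      field_simp
    rw [h7, Complex.re_add_im]
  rw [h6]
  refine h5.trans ?_
  have h7 := num_bound m 4 (by norm_num)
  calc 3 * M * (1 / 48) ^ m * (((m : ℝ) + 1) * ((2 * (2 * ((m : ℝ) + 1))) ^ m / m.factorial))
      = 3 * M * (1 / 48) ^ m * (((m : ℝ) + 1) * ((4 * ((m : ℝ) + 1)) ^ m / m.factorial)) := by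
        congr 4; ring
    _ ≤ 3 * M * (1 / 48) ^ m * (3 * (6 * 4) ^ m) := by
        refine mul_le_mul_of_nonneg_left h7 (by positivity)
    _ = 9 * M * ((1 / 48) ^ m * (6 * 4) ^ m) := by ring
    _ = 9 * M * (1 / 2) ^ m := by
        rw [← mul_pow]
        norm_num

/-- Cauchy estimate for the derivative. -/
theorem fderiv_bound {E : Type} [NormedAddCommGroup E] [NormedSpace ℂ E] (f : E → ℂ)
    (hf : Differentiable ℂ f) (z : E) (C : ℝ) (hC : ∀ w, ‖w - z‖ ≤ 1 → ‖f w‖ ≤ C) :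
    ‖fderiv ℂ f z‖ ≤ C := by
  have hC0 : 0 ≤ C := (norm_nonneg _).trans (hC z (by simp))
  refine ContinuousLinearMap.opNorm_le_bound _ hC0 fun v => ?_
  by_cases hv : v = 0
  · simp [hv]
  have hv0 : 0 < ‖v‖ := norm_pos_iff.2 hv
  have hd : Differentiable ℂ fun s : ℂ => f (z + s • v) :=
    hf.comp (f := fun s : ℂ => z + s • v) (by fun_prop)
  have h1 : deriv (fun s : ℂ => f (z + s • v)) 0 = fderiv ℂ f z v := by
    have h2 : HasFDerivAt f (fderiv ℂ f z) (z + (0 : ℂ) • v) := by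
      rw [zero_smul, add_zero]
      exact (hf z).hasFDerivAt
    have h3 : HasDerivAt (fun s : ℂ => z + s • v) v 0 := by
      simpa using ((hasDerivAt_id (0 : ℂ)).smul_const v).const_add z
    exact (h2.comp_hasDerivAt (0 : ℂ) h3).deriv
  rw [← h1]
  have h4 := Complex.norm_deriv_le_of_forall_mem_sphere_norm_le (c := 0) (R := ‖v‖⁻¹) (C := C)
    (f := fun s : ℂ => f (z + s • v)) (by positivity) hd.diffContOnCl (by
      intro s hs
      refine hC _ ?_
      rw [mem_sphere_zero_iff_norm] at hs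
      rw [add_sub_cancel_left, norm_smul, hs, inv_mul_cancel₀ hv0.ne'])
  refine h4.trans (le_of_eq ?_)
  rw [div_inv_eq_mul]

/-- The sum of the series is entire. -/
theorem sum_entire (F : ℕ → MvPolynomial κ ℂ)
    (hb : ∀ ρ : ℝ, 0 < ρ → ∃ M : ℝ, ∀ m (z : κ → ℂ), ‖z‖ ≤ ρ →
      ‖MvPolynomial.eval z (F m)‖ ≤ M * (1 / 2) ^ m) :
    Differentiable ℂ (fun z : κ → ℂ => ∑' m, MvPolynomial.eval z (F m)) := by
  have hd : ∀ m, Differentiable ℂ fun z : κ → ℂ => MvPolynomial.eval z (F m) := by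
    intro m z
    exact (AnalyticOnNhd.eval_mvPolynomial (F m) z (Set.mem_univ _)).differentiableAt
  intro z0
  obtain ⟨M, hM⟩ := hb (‖z0‖ + 2) (by positivity)
  have hsum : Summable fun m : ℕ => M * (1 / 2 : ℝ) ^ m :=
    (summable_geometric_of_lt_one (by norm_num) (by norm_num)).mul_left M
  have hmem : z0 ∈ ball (0 : κ → ℂ) (‖z0‖ + 1) := by
    rw [mem_ball_zero_iff]; linarith
  refine (hasFDerivAt_tsum_of_isPreconnected (𝕜 := ℂ) (x₀ := z0)
    (s := ball (0 : κ → ℂ) (‖z0‖ + 1)) (u := fun m : ℕ => M * (1 / 2 : ℝ) ^ m)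
    (f' := fun m z => fderiv ℂ (fun z : κ → ℂ => MvPolynomial.eval z (F m)) z)
    hsum isOpen_ball (convex_ball _ _).isPreconnected (fun m z _ => (hd m z).hasFDerivAt)
    (fun m z hz => ?_) hmem ?_ hmem).differentiableAt
  · refine fderiv_bound _ (hd m) z _ fun w hw => hM m w ?_
    rw [mem_ball_zero_iff] at hz
    have h1 : ‖w‖ ≤ ‖w - z‖ + ‖z‖ := by
      have := norm_add_le (w - z) z
      rwa [sub_add_cancel] at this
    linarith
  · exact Summable.of_norm_bounded hsum fun m => hM m z0 (by linarith)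

/-- The formal power series with given coefficients. -/
noncomputable def fps (c : ℕ → ℂ) : FormalMultilinearSeries ℝ ℝ ℂ :=
  fun n => ContinuousMultilinearMap.mkPiRing ℝ (Fin n) (c n)

/-- Uniqueness of coefficients from real points. -/
theorem coeff_unique (a b : ℕ → ℂ) (g : ℝ → ℂ)
    (ha : ∀ᶠ t : ℝ in 𝓝 0, HasSum (fun n => (t : ℂ) ^ n * a n) (g t))
    (hb : ∀ᶠ t : ℝ in 𝓝 0, HasSum (fun n => (t : ℂ) ^ n * b n) (g t)) : a = b := by
  have key : ∀ c : ℕ → ℂ, (∀ᶠ t : ℝ in 𝓝 0, HasSum (fun n => (t : ℂ) ^ n * c n) (g t)) →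
      HasFPowerSeriesAt g (fps c) 0 := by
    intro c hc
    refine hasFPowerSeriesAt_iff.2 ?_
    filter_upwards [hc] with t ht
    rw [zero_add]
    refine ht.congr_fun ?_
    intro n
    simp [FormalMultilinearSeries.coeff, fps]
  have h := (key a ha).eq_formalMultilinearSeries (key b hb)
  funext n
  have h1 := congrArg (fun p : FormalMultilinearSeries ℝ ℝ ℂ => p.coeff n) h
  simpa [FormalMultilinearSeries.coeff, fps] using h1

/-- The polynomial of a multilinear form. -/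
noncomputable def polyOf (m : ℕ) [DecidableEq κ]
    (φ : ContinuousMultilinearMap ℝ (fun _ : Fin m => κ → ℝ) ℝ) : MvPolynomial κ ℂ :=
  ∑ w : Fin m → κ, MvPolynomial.C ((φ fun l => Pi.single (w l) 1 : ℝ) : ℂ) *
    ∏ l, MvPolynomial.X (w l)

theorem polyOf_degree (m : ℕ) [DecidableEq κ]
    (φ : ContinuousMultilinearMap ℝ (fun _ : Fin m => κ → ℝ) ℝ) :
    (polyOf m φ).totalDegree ≤ m := by
  refine MvPolynomial.totalDegree_finsetSum_le fun w _ => ?_
  refine (MvPolynomial.totalDegree_mul _ _).trans ?_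
  rw [MvPolynomial.totalDegree_C, zero_add]
  refine (MvPolynomial.totalDegree_finsetProd _ _).trans ?_
  simp

theorem polyOf_hom (m : ℕ) [DecidableEq κ]
    (φ : ContinuousMultilinearMap ℝ (fun _ : Fin m => κ → ℝ) ℝ) (t : ℂ) (z : κ → ℂ) :
    MvPolynomial.eval (t • z) (polyOf m φ) = t ^ m * MvPolynomial.eval z (polyOf m φ) := by
  simp only [polyOf, map_sum, map_mul, map_prod, MvPolynomial.eval_C, MvPolynomial.eval_X,
    Pi.smul_apply, smul_eq_mul, Finset.mul_sum, Finset.prod_mul_distrib, Finset.prod_const,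
    Finset.card_univ, Fintype.card_fin]
  refine Finset.sum_congr rfl fun w _ => ?_
  ring

theorem polyOf_eval (m : ℕ) [DecidableEq κ]
    (φ : ContinuousMultilinearMap ℝ (fun _ : Fin m => κ → ℝ) ℝ) (x : κ → ℝ) :
    MvPolynomial.eval (cx x) (polyOf m φ) = ((φ fun _ => x : ℝ) : ℂ) := by
  have h1 : (fun _ : Fin m => x) = fun _ : Fin m => ∑ k : κ, x k • (Pi.single k 1 : κ → ℝ) := by
    funext l
    funext i
    simp [Finset.sum_apply, Pi.single_apply]
  have h2 : φ (fun _ => x) = ∑ w : Fin m → κ, (∏ l, x (w l)) *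
      φ (fun l => (Pi.single (w l) 1 : κ → ℝ)) := by
    conv_lhs => rw [h1]
    have h3 := φ.toMultilinearMap.map_sum (fun (_ : Fin m) (k : κ) => x k • (Pi.single k 1 : κ → ℝ))
    simp only [ContinuousMultilinearMap.coe_coe] at h3
    rw [h3]
    refine Finset.sum_congr rfl fun w _ => ?_
    have h4 := φ.map_smul_univ (fun l => x (w l)) (fun l => (Pi.single (w l) 1 : κ → ℝ))
    rw [h4, smul_eq_mul]
  rw [h2]
  simp only [polyOf, map_sum, map_mul, map_prod, MvPolynomial.eval_C, MvPolynomial.eval_X, cx]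
  push_cast
  refine Finset.sum_congr rfl fun w _ => ?_
  ring

/-- Complexification of a real-analytic function with entire restrictions to lines. -/
theorem complexify (q : (κ → ℝ) → ℝ) (hq : AnalyticAt ℝ q 0)
    (hline : ∀ x : κ → ℝ, ∃ h : ℂ → ℂ, Differentiable ℂ h ∧ ∀ t : ℝ, h t = (q (t • x) : ℂ)) :
    ∃ Q : (κ → ℂ) → ℂ, Differentiable ℂ Q ∧ ∀ x : κ → ℝ, Q (cx x) = q x := by
  classical
  obtain ⟨φ, hφ⟩ := hq
  set F : ℕ → MvPolynomial κ ℂ := fun m => polyOf m (φ m) with hF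
  -- the series of the entire extension
  have hser : ∀ x : κ → ℝ, ∀ h : ℂ → ℂ, Differentiable ℂ h → (∀ t : ℝ, h t = (q (t • x) : ℂ)) →
      ∀ s : ℂ, HasSum (fun m => s ^ m * MvPolynomial.eval (cx x) (F m)) (h s) := by
    intro x h hh hhq
    set a : ℕ → ℂ := fun m => ((m.factorial : ℂ))⁻¹ * iteratedDeriv m h 0 with ha
    have h1 : ∀ s : ℂ, HasSum (fun m => s ^ m * a m) (h s) := by
      intro s
      have h2 := Complex.hasSum_taylorSeries_of_entire hh 0 s
      refine h2.congr_fun ?_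
      intro m
      simp only [ha, sub_zero, smul_eq_mul]
      ring
    have h3 : ∀ᶠ t : ℝ in 𝓝 0, HasSum (fun m => (t : ℂ) ^ m * MvPolynomial.eval (cx x) (F m))
        (h t) := by
      have h4 := hφ.eventually_hasSum
      have h5 : Tendsto (fun t : ℝ => t • x) (𝓝 0) (𝓝 0) := by
        have : Continuous fun t : ℝ => t • x := by fun_prop
        simpa using this.tendsto 0
      filter_upwards [h5.eventually h4] with t ht
      rw [zero_add] at ht
      rw [hhq t]
      have h6 := Complex.hasSum_ofReal.2 ht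
      refine h6.congr_fun ?_
      intro m
      rw [hF]
      simp only
      rw [polyOf_eval]
      have h7 := (φ m).map_smul_univ (fun _ => t) (fun _ => x)
      rw [h7]
      simp
    have h8 := coeff_unique a (fun m => MvPolynomial.eval (cx x) (F m)) (fun t => h t)
      (Eventually.of_forall fun t => h1 t) h3
    intro s
    have h9 := h1 s
    rw [h8] at h9
    exact h9
  have hpt : ∀ (R : ℝ), 0 < R → ∀ x : κ → ℝ, ∃ M : ℝ, ∀ m,
      ‖MvPolynomial.eval (cx x) (F m)‖ * R ^ m ≤ M := by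
    intro R hR x
    obtain ⟨h, hh, hhq⟩ := hline x
    have h1 := (hser x h hh hhq (R : ℂ)).summable.tendsto_atTop_zero.norm
    obtain ⟨M, hM⟩ := h1.bddAbove_range
    refine ⟨M, fun m => ?_⟩
    have h2 := hM ⟨m, rfl⟩
    simp only [norm_mul, norm_pow, Complex.norm_real, Real.norm_eq_abs, abs_of_pos hR] at h2
    rw [mul_comm]
    exact h2
  have hb := cx_bound F (fun m => polyOf_degree m _) (fun m t z => polyOf_hom m _ t z) hpt
  refine ⟨fun z => ∑' m, MvPolynomial.eval z (F m), sum_entire F hb, fun x => ?_⟩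
  obtain ⟨h, hh, hhq⟩ := hline x
  have h1 := (hser x h hh hhq 1).tsum_eq
  simp only [one_pow, one_mul] at h1
  have h2 := hhq 1
  simp only [one_smul, Complex.ofReal_one] at h2
  exact h1.trans h2

end Pool.Agent.Q58.HR
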