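import Mathlib
import Pool.Agent.Q58.HR.Cx

set_option autoImplicit false

open Filter Topology

namespace Pool.Agent.Q58.HR

variable {n : ℕ}

/-- The real-linear identification of `ℝⁿ ⊕ ℝⁿ` with `ℂⁿ`. -/
noncomputable def toC : ((Fin n ⊕ Fin n) → ℝ) →ₗ[ℝ] (Fin n → ℂ) where
  toFun x := fun i => (x (Sum.inl i) : ℂ) + (x (Sum.inr i) : ℂ) * Complex.I
  map_add' x y := by
    funext i
    simp only [Pi.add_apply]
    push_cast
    ring
  map_smul' t x := by
    funext i
    simp only [Pi.smul_apply, smul_eq_mul, RingHom.id_apply, Complex.real_smul]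
    push_cast
    ring

theorem exists_P (hn : 2 ≤ n) {k : ℕ} (p : (Fin n → ℂ) → ℝ) (hp : AnalyticOnNhd ℝ p Set.univ)
    (hyp : HypK k p) :
    ∃ P : (Fin n → ℂ) → (Fin n → ℂ) → ℂ,
      Differentiable ℂ (fun q : (Fin n → ℂ) × (Fin n → ℂ) => P q.1 q.2) ∧
      ∀ z, P z (star z) = p z := by
  have hq : AnalyticAt ℝ (fun x : (Fin n ⊕ Fin n) → ℝ => p (toC x)) 0 := by
    have h1 : AnalyticAt ℝ (fun x : (Fin n ⊕ Fin n) → ℝ => (toC x : Fin n → ℂ)) 0 :=
      (LinearMap.toContinuousLinearMap toC).analyticAt 0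
    exact (hp _ (Set.mem_univ _)).comp h1
  have hline : ∀ x : (Fin n ⊕ Fin n) → ℝ, ∃ h : ℂ → ℂ, Differentiable ℂ h ∧
      ∀ t : ℝ, h t = (p (toC (t • x)) : ℂ) := by
    intro x
    -- a hyperplane through the origin containing the vector
    have hlt : Submodule.span ℂ {(toC x : Fin n → ℂ)} < ⊤ := by
      rw [lt_top_iff_ne_top]
      intro h
      have h1 := finrank_span_le_card (R := ℂ) ({(toC x : Fin n → ℂ)} : Set (Fin n → ℂ))
      rw [h] at h1
      simp only [finrank_top, Module.finrank_fin_fun, Set.toFinset_singleton,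
        Finset.card_singleton] at h1
      omega
    obtain ⟨m, hm, hle⟩ := Submodule.exists_le_ker_of_lt_top _ hlt
    have hmx : m (toC x) = 0 := hle (Submodule.mem_span_singleton_self _)
    obtain ⟨L, hL, hsurj⟩ := exists_param hn m hm
    obtain ⟨x0, hx0⟩ := hsurj _ hmx
    obtain ⟨ε, g, -, hg, hsum⟩ := hyp 0 L hL
    refine ⟨fun s => ∑ j, ε j * g j (s • x0) *
      (starRingEnd ℂ) (g j ((starRingEnd ℂ) s • x0)), ?_, ?_⟩
    · refine Differentiable.fun_sum fun j _ => ?_
      have h1 : Differentiable ℂ fun s : ℂ => g j (s • x0) :=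
        (hg j).comp (f := fun s : ℂ => s • x0) (by fun_prop)
      exact (h1.const_mul _).mul (conj_entire _ h1)
    · intro t
      have h1 : toC (t • x) = 0 + L ((t : ℂ) • x0) := by
        rw [zero_add, map_smul, map_smul, hx0]
        funext i
        simp
      rw [h1, hsum]
      push_cast
      refine Finset.sum_congr rfl fun j _ => ?_
      rw [Complex.conj_ofReal, mul_assoc, Complex.mul_conj]
  obtain ⟨Q, hQ, hQq⟩ := complexify _ hq hline
  refine ⟨fun z w => Q (Sum.elim (fun i => (1 / 2 : ℂ) * (z i + w i))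
    (fun i => (-Complex.I / 2 : ℂ) * (z i - w i))), ?_, ?_⟩
  · refine hQ.comp (f := fun q : (Fin n → ℂ) × (Fin n → ℂ) =>
      (Sum.elim (fun i => (1 / 2 : ℂ) * (q.1 i + q.2 i))
      (fun i => (-Complex.I / 2 : ℂ) * (q.1 i - q.2 i)) : (Fin n ⊕ Fin n) → ℂ)) ?_
    rw [differentiable_pi]
    rintro (i | i)
    · simp only [Sum.elim_inl]
      fun_prop
    · simp only [Sum.elim_inr]
      fun_prop
  · intro z
    have h1 : (Sum.elim (fun i => (1 / 2 : ℂ) * (z i + (star z) i))
        (fun i => (-Complex.I / 2 : ℂ) * (z i - (star z) i)) : (Fin n ⊕ Fin n) → ℂ) =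
        cx (Sum.elim (fun i => (z i).re) (fun i => (z i).im)) := by
      funext s
      rcases s with i | i
      · simp only [Sum.elim_inl, cx, Pi.star_apply]
        rw [← starRingEnd_apply, Complex.add_conj]
        push_cast
        ring
      · simp only [Sum.elim_inr, cx, Pi.star_apply]
        rw [← starRingEnd_apply, Complex.sub_conj]
        push_cast
        have h2 : (-Complex.I / 2) * (2 * ((z i).im : ℂ) * Complex.I) =
            -(Complex.I * Complex.I) * (z i).im := by ring
        rw [h2, Complex.I_mul_I]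
        ring
    show Q _ = _
    rw [h1, hQq]
    congr 2
    funext i
    simp [toC, Complex.re_add_im]

end Pool.Agent.Q58.HR
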